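import Pool.Agent.K4H62.HF.TDefs

/-!
Orbifold curves as bases of fibrations; the definitions.
-/

set_option autoImplicit false
set_option linter.overlappingInstances false

open FF Pool.Agent.W603.LV Pool.Agent.W603.PV Pool.Agent.K4H62.HF

namespace Pool.Agent.K4H62.VA

/-- `Spec B` is an open subset of the affine variety `X = Spec R`, with a dominant morphism to the
affine curve `Spec B1`, with smooth projective completion `Y` and field of functions `E1`. For
finitely many points `c` of `Y` (the places in `Q`) there are numbers `m c`, such that each curve in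
`X` (with the field of functions `E`) which is not in a fibre meets the fibre over `c` with
multiplicity `e ≥ m c` at each of its points `P` over `c` (so, if `X` is smooth, all components of the
fibre over `c` have multiplicities at least `m c`), and there is no such point if `m c = 0`. The orbifold curve `Y` with
these multiplicities is hyperbolic: the sum of `2 g - 2` and of the `1 - 1 / m c` is positive (here
`1 / 0 = 0`). -/
def OrbifoldCurve (k R B B1 E1 : Type) [Field k] [CommRing R] [CommRing B] [CommRing B1]
    [Field E1] [Algebra k B] [Algebra k E1] [Algebra R B] [Algebra B1 B] [Algebra B1 E1]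
    (Q : Finset (Place k E1)) (m : Place k E1 → ℕ) : Prop :=
  0 < (canDeg k E1 : ℚ) + ∑ c ∈ Q, (1 - 1 / (m c : ℚ)) ∧
  ∀ (E : Type) [Field E] [Algebra k E] [IsFF k E] [Algebra E1 E] [IsScalarTower k E1 E]
    (φ : B →ₐ[k] E),
    (∀ b : B1, φ (algebraMap B1 B b) = algebraMap E1 E (algebraMap B1 E1 b)) →
    ∀ P : Place k E, (∀ r : R, 0 ≤ P.ord (φ (algebraMap R B r))) → ∀ c ∈ Q, ∀ e : ℕ, 0 < e →
      (∀ x : E1, P.ord (algebraMap E1 E x) = e * c.ord x) → m c ≠ 0 ∧ m c ≤ e

/-- The function `b` on `Spec B` is the pullback of a function on a hyperbolic orbifold curve. -/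
def FromCurve (k R : Type) {B : Type} [Field k] [CommRing R] [CommRing B] [Algebra k B]
    [Algebra R B] (b : B) : Prop :=
  ∃ (B1 E1 : Type) (_ : CommRing B1) (_ : Field E1) (_ : Algebra k B1) (_ : Algebra k E1)
    (_ : Algebra B1 B) (_ : Algebra B1 E1) (_ : IsScalarTower k B1 B) (_ : IsScalarTower k B1 E1)
    (_ : IsFractionRing B1 E1) (_ : IsFF k E1) (Q : Finset (Place k E1)) (m : Place k E1 → ℕ),
    OrbifoldCurve k R B B1 E1 Q m ∧ b ∈ Set.range (algebraMap B1 B)

/-- The ring `B0` is generated by pullbacks of functions on hyperbolic orbifold curves: there is a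
map from `Spec B0` to a product of such curves, which is an embedding. -/
def OrbifoldBase (k R B0 B : Type) [Field k] [CommRing R] [CommRing B0] [CommRing B]
    [Algebra k B0] [Algebra k B] [Algebra R B] [Algebra B0 B] : Prop :=
  Algebra.adjoin k {a : B0 | FromCurve k R (algebraMap B0 B a)} = ⊤

/-- `Spec B` is an open subset of the affine variety `X = Spec R`, with a morphism to `Spec B0`. For
each function `b` on `Spec B0` there is a number `A` such that for all morphisms from smooth affine
curves `C` (function field `E`, places at infinity `S`) to `X` whose image is not contained in some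
proper closed subset (given by the complement of `Spec B` and by `g = 0`), the degree of `b` on `C` is
at most `A max (2 g - 2 + s, 0)`. -/
def BoundedBase (k R B0 B : Type) [Field k] [CommRing R] [CommRing B0] [CommRing B]
    [Algebra k B] [Algebra R B] [Algebra B0 B] : Prop :=
  ∃ g : B, g ≠ 0 ∧ ∀ b : B0, ∃ A : ℕ, ∀ (E : Type) [Field E] [Algebra k E] [IsFF k E]
    (S : Finset (Place k E)) (φ : B →ₐ[k] E),
    (∀ r : R, ∀ P ∉ S, 0 ≤ P.ord (φ (algebraMap R B r))) → φ g ≠ 0 →
      hgt k (φ (algebraMap B0 B b)) ≤ A * max (canDeg k E + S.card) 0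

end Pool.Agent.K4H62.VA
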