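import Pool.Agent.K4H62.VA.Defs
import Pool.Agent.K4H62.VA.OrbDefs

/-!
The classes of morphisms and of varieties.
-/

set_option autoImplicit false
set_option linter.overlappingInstances false

open FF Pool.Agent.W603.LV Pool.Agent.K4H62.HF

namespace Pool.Agent.K4H62.VA

/-- `Spec B → Spec B0` is a dominant morphism from an affine variety to an affine variety. -/
structure Dominant (k B0 B : Type) [Field k] [CommRing B0] [CommRing B] [Algebra k B0]
    [Algebra k B] [Algebra B0 B] : Prop where
  ft0 : Algebra.FiniteType k B0
  ft : Algebra.FiniteType k B
  dom : IsDomain B
  tower : IsScalarTower k B0 B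
  inj : Function.Injective (algebraMap B0 B)

/-- **The Lang-Vojta conjecture (Q1)** for the affine variety `X = Spec R`, with functions `β` of any
shape: there is a proper closed subset `g = 0` of `X` such that for each regular function `b` on `X`
there is a function `β` such that for all morphisms `f` from smooth affine curves `C` (function field
`E`, places at infinity `S`) to `X` whose image is not contained in `g = 0`, the degree of `b ∘ f` is
at most `β (max (2 g - 2 + s, 0))`. -/
def DegreeBound (k R : Type) [Field k] [CommRing R] [Algebra k R] : Prop :=
  ∃ g : R, g ≠ 0 ∧ ∀ b : R, ∃ β : ℤ → ℕ, ∀ (E : Type) [Field E] [Algebra k E] [IsFF k E]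
    (S : Finset (Place k E)) (φ : R →ₐ[k] E), (∀ b, ∀ P ∉ S, 0 ≤ P.ord (φ b)) → φ g ≠ 0 →
      hgt k (φ b) ≤ β (max (canDeg k E + S.card) 0)

/-- `Spec B` is an affine variety, closed in `Spec B1 × Spec B2`, with dominant projections. -/
structure Joins (k B1 B2 B : Type) [Field k] [CommRing B1] [CommRing B2] [CommRing B]
    [Algebra k B1] [Algebra k B2] [Algebra k B] [Algebra B1 B] [Algebra B2 B] : Prop where
  ft1 : Algebra.FiniteType k B1
  ft2 : Algebra.FiniteType k B2
  dom : IsDomain B
  tower1 : IsScalarTower k B1 B
  tower2 : IsScalarTower k B2 B
  inj1 : Function.Injective (algebraMap B1 B)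
  inj2 : Function.Injective (algebraMap B2 B)
  gen : Algebra.adjoin k (Set.range (algebraMap B1 B) ∪ Set.range (algebraMap B2 B)) = ⊤

/-- The smallest class of dominant morphisms of affine varieties which contains the fibrations in
hyperbolic affine curves (`Fibration`), the fibrations with monomial maps (`MFibration`) and the
morphisms which are finite over the generic point, and which is stable under
* composition;
* joins: if `X1 → Y` and `X2 → Y` are in the class, and `X` is a closed subvariety of the fibre product
  with dominant projections to `X1` and `X2`, then `X → Y` is in the class;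
* correspondences: if `X' → Y'` is in the class, and a component of the geometric generic fibre of
  `X → Y` has a finite etale covering which has a generically finite and dominant map to a component of
  the geometric generic fibre of `X' → Y'`, then `X → Y` is in the class. -/
inductive Hyperbolic (k : Type) [Field k] : (B0 B : Type) → [CommRing B0] → [CommRing B] →
    [Algebra k B0] → [Algebra k B] → [Algebra B0 B] → Prop
  | curve (B0 B : Type) [CommRing B0] [CommRing B] [Algebra k B0] [Algebra k B] [Algebra B0 B] :
      Fibration k B0 B → Hyperbolic k B0 B
  | monomial (B0 B : Type) [CommRing B0] [CommRing B] [Algebra k B0] [Algebra k B]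
      [Algebra B0 B] : MFibration k B0 B → Hyperbolic k B0 B
  | finite (B0 B : Type) [CommRing B0] [CommRing B] [Algebra k B0] [Algebra k B] [Algebra B0 B] :
      Dominant k B0 B → Algebra.IsAlgebraic B0 B → Hyperbolic k B0 B
  | comp (B0 B1 B : Type) [CommRing B0] [CommRing B1] [CommRing B] [Algebra k B0] [Algebra k B1]
      [Algebra k B] [Algebra B0 B1] [Algebra B1 B] [Algebra B0 B] [IsScalarTower B0 B1 B] :
      Hyperbolic k B0 B1 → Hyperbolic k B1 B → Hyperbolic k B0 B
  | join (B0 B1 B2 B : Type) [CommRing B0] [CommRing B1] [CommRing B2] [CommRing B]
      [Algebra k B0] [Algebra k B1] [Algebra k B2] [Algebra k B] [Algebra B0 B1] [Algebra B0 B2]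
      [Algebra B0 B] [Algebra B1 B] [Algebra B2 B] [IsScalarTower B0 B1 B]
      [IsScalarTower B0 B2 B] : Hyperbolic k B0 B1 → Hyperbolic k B0 B2 → Joins k B1 B2 B →
      Hyperbolic k B0 B
  | corr (B0 B B0' B' : Type) [CommRing B0] [CommRing B] [CommRing B0'] [CommRing B']
      [Algebra k B0] [Algebra k B] [Algebra k B0'] [Algebra k B'] [Algebra B0 B]
      [Algebra B0' B'] : Hyperbolic k B0' B' → Correspondence k B0 B B0' B' → Hyperbolic k B0 B

/-- The smallest class of affine varieties with the following properties. It contains the point.
It contains `X` if there is a morphism in the above class from `X` to a variety `Y` in the class. It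
contains `X` if `X` is a closed subvariety, with dominant projections to the factors, of the product
of two varieties in the class. It contains `X = Spec R` if there is a rational map from `X` to a product of hyperbolic orbifold curves
`Y j`, which is a morphism in the above class over the open affine subset `Spec B0` of the closure of
the image of `X`, with the preimage `Spec B` (the points of the curves are given multiplicities
according to the multiplicities of the fibres of `X` over them, see `OrbifoldCurve`; the product can be
one curve). It contains `X` if a finite etale covering of (the normalization of) `X` has a generically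
finite and dominant map to a variety `X'` in the class. -/
inductive Variety (k : Type) [Field k] : (B : Type) → [CommRing B] → [Algebra k B] → Prop
  | point : Variety k k
  | fibre (B0 B : Type) [CommRing B0] [CommRing B] [Algebra k B0] [Algebra k B] [Algebra B0 B] :
      Variety k B0 → Hyperbolic k B0 B → Variety k B
  | join (B1 B2 B : Type) [CommRing B1] [CommRing B2] [CommRing B] [Algebra k B1] [Algebra k B2]
      [Algebra k B] [Algebra B1 B] [Algebra B2 B] : Variety k B1 → Variety k B2 →
      Joins k B1 B2 B → Variety k B
  | orbifold (R B0 B : Type) [CommRing R] [CommRing B0] [CommRing B] [Algebra k R]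
      [Algebra k B0] [Algebra k B] [Algebra R B] [Algebra B0 B] [IsScalarTower k R B] :
      OrbifoldBase k R B0 B → Hyperbolic k B0 B → Chart k R B0 B → Variety k R
  | corr (B B' : Type) [CommRing B] [CommRing B'] [Algebra k B] [Algebra k B'] :
      Variety k B' → Correspondence k k B k B' → Variety k B

end Pool.Agent.K4H62.VA
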