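import Pool.Agent.K4H62.VA.Rel

/-!
The height inequality and correspondences.
-/

set_option autoImplicit false
set_option linter.overlappingInstances false
set_option linter.unusedSectionVars false

open FF Pool.Agent.W603.LV Pool.Agent.W603.PV Pool.Agent.K4H62.HF
open Pool.Agent.TH466.QG (Sp)

namespace Pool.Agent.K4H62.VA

/-- specializations of rings -/
theorem sp_hom {k B M K : Type} [Field k] [CommRing B] [Field M] [Field K] [Algebra k B]
    [Algebra k M] [Algebra k K] [Algebra B M] [IsScalarTower k B M] (T : Sp k M K) {n : ℕ}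
    {x : Fin n → B} (hx : Algebra.adjoin k (Set.range x) = ⊤)
    (hT : ∀ i, ∃ e, T.T (algebraMap B M (x i)) e) :
    ∃ φ : B →ₐ[k] K, ∀ b, T.T (algebraMap B M b) (φ b) := by
  have key : ∀ b : B, ∃ e, T.T (algebraMap B M b) e := by
    intro b
    have hb : b ∈ Algebra.adjoin k (Set.range x) := by
      rw [hx]
      exact Algebra.mem_top
    induction hb using Algebra.adjoin_induction with
    | mem x hx =>
      obtain ⟨i, rfl⟩ := hx
      exact hT i
    | algebraMap c =>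
      rw [← IsScalarTower.algebraMap_apply k B M]
      exact ⟨_, T.const c⟩
    | add x y _ _ hx hy =>
      obtain ⟨e, he⟩ := hx
      obtain ⟨e', he'⟩ := hy
      rw [map_add]
      exact ⟨_, T.add he he'⟩
    | mul x y _ _ hx hy =>
      obtain ⟨e, he⟩ := hx
      obtain ⟨e', he'⟩ := hy
      rw [map_mul]
      exact ⟨_, T.mul he he'⟩
  choose f hf using key
  have h1 : f 1 = 1 := T.ext (hf 1) (by rw [map_one]; exact T.one)
  have h0 : f 0 = 0 := T.ext (hf 0) (by rw [map_zero]; exact T.zero)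
  have hmul : ∀ x y, f (x * y) = f x * f y := fun x y =>
    T.ext (hf (x * y)) (by rw [map_mul]; exact T.mul (hf x) (hf y))
  have hadd : ∀ x y, f (x + y) = f x + f y := fun x y =>
    T.ext (hf (x + y)) (by rw [map_add]; exact T.add (hf x) (hf y))
  let f' : B →+* K :=
    { toFun := f
      map_one' := h1
      map_mul' := hmul
      map_zero' := h0
      map_add' := hadd }
  have hc : ∀ c : k, f' (algebraMap k B c) = algebraMap k K c := fun c =>
    T.ext (hf _) (by rw [← IsScalarTower.algebraMap_apply k B M]; exact T.const c)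
  exact ⟨{ f' with commutes' := hc }, hf⟩

/-- weaker conditions at the places where a generator has a pole -/
theorem weaken {k B0 B : Type} [Field k] [IsAlgClosed k] [CharZero k] [CommRing B0] [CommRing B]
    [Algebra k B0] [Algebra k B] [Algebra B0 B] {m : ℕ} (a : Fin m → B0)
    (h : ∃ g : B, g ≠ 0 ∧ ∀ b : B, ∃ A : ℕ, ∀ (E : Type) [Field E] [Algebra k E] [IsFF k E]
      (S : Finset (Place k E)) (φ : B →ₐ[k] E), (∀ b, ∀ P ∉ S, 0 ≤ P.ord (φ b)) → φ g ≠ 0 →
        hgt k (φ b) ≤ A * (max (canDeg k E + S.card) 0 +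
          ∑ j, hgt k (φ (algebraMap B0 B (a j))))) :
    ∃ g : B, g ≠ 0 ∧ ∀ b : B, ∃ A : ℕ, ∀ (E : Type) [Field E] [Algebra k E] [IsFF k E]
      (S : Finset (Place k E)) (φ : B →ₐ[k] E),
      (∀ P ∉ S, (∀ b, 0 ≤ P.ord (φ b)) ∨ ∃ j, P.ord (φ (algebraMap B0 B (a j))) < 0) →
      φ g ≠ 0 → hgt k (φ b) ≤ A * (max (canDeg k E + S.card) 0 +
          ∑ j, hgt k (φ (algebraMap B0 B (a j)))) := by
  classical
  obtain ⟨g, hg, hA⟩ := h
  refine ⟨g, hg, fun b => ?_⟩
  obtain ⟨A, hA⟩ := hA b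
  refine ⟨A * 3, ?_⟩
  intro E _ _ _ S φ hS hφg
  choose T hT1 hT2 using fun j => supp_card (k := k) (φ (algebraMap B0 B (a j)))
  obtain ⟨S', hS'⟩ : ∃ S' : Finset (Place k E), S' = S ∪ Finset.univ.biUnion T := ⟨_, rfl⟩
  have h1 := hA E S' φ (by
    intro b P hP
    rw [hS'] at hP
    rcases hS P (fun h0 => hP (Finset.mem_union_left _ h0)) with h1 | ⟨j, hj⟩
    · exact h1 b
    · exact absurd (Finset.mem_union_right _ (Finset.mem_biUnion.2
        ⟨j, Finset.mem_univ j, (hT1 j P).1 hj.ne⟩)) hP) hφg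
  have h2 : (S'.card : ℤ) ≤ S.card + 2 * ∑ j, hgt k (φ (algebraMap B0 B (a j))) := by
    have e1 : (S'.card : ℤ) ≤ S.card + (Finset.univ.biUnion T).card := by
      rw [hS']
      exact_mod_cast Finset.card_union_le _ _
    have e2 : ((Finset.univ.biUnion T).card : ℤ) ≤ ∑ j, ((T j).card : ℤ) := by
      exact_mod_cast Finset.card_biUnion_le
    have e3 : ∑ j, ((T j).card : ℤ) ≤ ∑ j, 2 * hgt k (φ (algebraMap B0 B (a j))) :=
      Finset.sum_le_sum fun j _ => hT2 j
    rw [← Finset.mul_sum] at e3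
    linarith
  have h3 : 0 ≤ ∑ j, hgt k (φ (algebraMap B0 B (a j))) :=
    Finset.sum_nonneg fun _ _ => hgt_nonneg _
  have h4 : 0 ≤ max (canDeg k E + (S.card : ℤ)) 0 := le_max_right _ _
  have h5 : max (canDeg k E + (S'.card : ℤ)) 0 ≤ max (canDeg k E + (S.card : ℤ)) 0 +
      2 * ∑ j, hgt k (φ (algebraMap B0 B (a j))) := by
    refine max_le ?_ (by linarith)
    have := le_max_left (canDeg k E + (S.card : ℤ)) 0
    linarith
  refine h1.trans ?_
  push_cast
  rw [mul_assoc]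
  exact mul_le_mul_of_nonneg_left (by linarith) (Int.natCast_nonneg _)

/-- **Correspondences.** -/
theorem corr_gen {k B0 B B0' B' M : Type} [Field k] [IsAlgClosed k] [CharZero k] [CommRing B0]
    [CommRing B] [CommRing B0'] [CommRing B'] [Field M] [Algebra k B0] [Algebra k B]
    [Algebra k B0'] [Algebra k B'] [Algebra.FiniteType k B] [Algebra k M]
    [Algebra B0 B] [Algebra B0 M] [Algebra B M] [Algebra B0' B'] [Algebra B' M]
    [IsScalarTower k B0 B] [IsScalarTower k B M] [IsScalarTower B0 B M] [IsScalarTower k B' M]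
    {Ω : IntermediateField k M} (h : Covering B0 B Ω)
    (hinj' : Function.Injective (algebraMap B' M))
    (hbase' : ∀ b : B0', algebraMap B' M (algebraMap B0' B' b) ∈ Ω)
    (hreg' : ∀ b : B', IntOver B Ω (algebraMap B' M b))
    (hfin : ∀ w : M, IsAlgebraic (IntermediateField.adjoin Ω (Set.range (algebraMap B' M))) w)
    {m : ℕ} (a : Fin m → B0) (ha : Algebra.adjoin k (Set.range a) = ⊤)
    {N' m' : ℕ} (x' : Fin N' → B') (hx' : Algebra.adjoin k (Set.range x') = ⊤)
    (a' : Fin m' → B0') (g' : B') (hg' : g' ≠ 0) :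
    ∃ (g : B) (N1 : ℕ), g ≠ 0 ∧ ∀ b : B, ∃ D : ℕ, ∀ (E : Type) [Field E] [Algebra k E] [IsFF k E]
      (S : Finset (Place k E)) (φ : B →ₐ[k] E), (∀ b, ∀ P ∉ S, 0 ≤ P.ord (φ b)) → φ g ≠ 0 →
      ∃ (K : Type) (_ : Field K) (_ : Algebra k K) (_ : IsFF k K) (S' : Finset (Place k K))
        (φ' : B' →ₐ[k] K), (∀ b, ∀ P ∉ S', 0 ≤ P.ord (φ' b)) ∧ φ' g' ≠ 0 ∧
        max (canDeg k K + S'.card) 0 ≤ N1 * (max (canDeg k E + S.card) 0 +
          ∑ j, hgt k (φ (algebraMap B0 B (a j)))) ∧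
        ∑ j, hgt k (φ' (algebraMap B0' B' (a' j))) ≤
          N1 * ∑ j, hgt k (φ (algebraMap B0 B (a j))) ∧
        hgt k (φ b) ≤ D * (∑ i, hgt k (φ' (x' i)) +
          N1 * ∑ j, hgt k (φ (algebraMap B0 B (a j)))) := by
  classical
  -- the coordinates
  obtain ⟨NB, x, hx⟩ := exists_gens k B
  obtain ⟨ξ, hξ⟩ : ∃ ξ : Fin NB → M, ∀ i, ξ i = algebraMap B M (x i) := ⟨_, fun _ => rfl⟩
  obtain ⟨α, hα⟩ : ∃ α : Fin m → M, ∀ j, α j = algebraMap B0 M (a j) := ⟨_, fun _ => rfl⟩
  obtain ⟨u, hu⟩ : ∃ u : Fin N' → M, ∀ i, u i = algebraMap B' M (x' i) := ⟨_, fun _ => rfl⟩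
  have hst0 : IsScalarTower k B0 M := by
    refine IsScalarTower.of_algebraMap_eq fun c => ?_
    rw [IsScalarTower.algebraMap_apply k B M, IsScalarTower.algebraMap_apply k B0 B,
      ← IsScalarTower.algebraMap_apply B0 B M]
  have halg : ∀ w : M, IsAlgebraic (IntermediateField.adjoin k (Set.range (Fin.append u α))) w := by
    intro w
    obtain ⟨F', hF'⟩ : ∃ F' : IntermediateField k M,
      F' = IntermediateField.adjoin k (Set.range (Fin.append u α)) := ⟨_, rfl⟩
    rw [← hF']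
    have hαF : ∀ j, α j ∈ F' := fun j => by
      rw [hF']
      exact IntermediateField.subset_adjoin k _ ⟨Fin.natAdd N' j, Fin.append_right u α j⟩
    have huF : ∀ i, u i ∈ F' := fun i => by
      rw [hF']
      exact IntermediateField.subset_adjoin k _ ⟨Fin.castAdd m i, Fin.append_left u α i⟩
    have hB0F : ∀ b : B0, algebraMap B0 M b ∈ F' := by
      intro b
      have hb : b ∈ Algebra.adjoin k (Set.range a) := by
        rw [ha]
        exact Algebra.mem_top
      induction hb using Algebra.adjoin_induction with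
      | mem x hx =>
        obtain ⟨j, rfl⟩ := hx
        rw [← hα]
        exact hαF j
      | algebraMap c =>
        rw [← IsScalarTower.algebraMap_apply k B0 M]
        exact algebraMap_mem _ _
      | add x y _ _ hx hy =>
        rw [map_add]
        exact add_mem hx hy
      | mul x y _ _ hx hy =>
        rw [map_mul]
        exact mul_mem hx hy
    have hB'F : ∀ b : B', algebraMap B' M b ∈ F' := by
      intro b
      have hb : b ∈ Algebra.adjoin k (Set.range x') := by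
        rw [hx']
        exact Algebra.mem_top
      induction hb using Algebra.adjoin_induction with
      | mem x hx =>
        obtain ⟨j, rfl⟩ := hx
        rw [← hu]
        exact huF j
      | algebraMap c =>
        rw [← IsScalarTower.algebraMap_apply k B' M]
        exact algebraMap_mem _ _
      | add x y _ _ hx hy =>
        rw [map_add]
        exact add_mem hx hy
      | mul x y _ _ hx hy =>
        rw [map_mul]
        exact mul_mem hx hy
    have hinj1 : Function.Injective (algebraMap B0 M) := by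
      rw [IsScalarTower.algebraMap_eq B0 B M]
      exact h.inj.comp h.inj0
    refine alg_trans' F' Ω (Set.range (algebraMap B' M))
      (fun c hc => alg_of_ring hinj1 F' hB0F (h.alg c hc)) ?_ (hfin w)
    rintro _ ⟨b, rfl⟩
    exact isAlgebraic_algebraMap (R := F') (A := M) ⟨_, hB'F b⟩
  obtain ⟨Θh, C2, hΘh, hC2⟩ := alg_hgt' (Fin.append u α) (Finset.univ.image ξ) fun ϑ _ => halg ϑ
  obtain ⟨Ξ, hΞ⟩ : ∃ Ξ : Finset M, Ξ = Θh ∪ (Finset.univ.image u ∪ {(algebraMap B' M g')⁻¹}) :=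
    ⟨_, rfl⟩
  have hΞh : ∀ x ∈ Θh, x ∈ Ξ := fun x hx => by
    rw [hΞ]
    exact Finset.mem_union_left _ hx
  have hΞu : ∀ i, u i ∈ Ξ := fun i => by
    rw [hΞ]
    exact Finset.mem_union_right _ (Finset.mem_union_left _
      (Finset.mem_image_of_mem _ (Finset.mem_univ i)))
  have hΞg : (algebraMap B' M g')⁻¹ ∈ Ξ := by
    rw [hΞ]
    exact Finset.mem_union_right _ (Finset.mem_union_right _ (Finset.mem_singleton_self _))
  obtain ⟨Θc, hΘc⟩ : ∃ Θc : Finset M, Θc = (Finset.univ.image fun j =>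
    algebraMap B' M (algebraMap B0' B' (a' j))).filter fun x => x ≠ 0 := ⟨_, rfl⟩
  obtain ⟨Θ, N0, C, g, hΘ, hg, hlift⟩ := lift h.inj0 h.inj h.base h.alg h.etale a ha Ξ
    (Finset.univ.image u) Θc (by
    intro w hw
    obtain ⟨i, -, rfl⟩ := Finset.mem_image.1 hw
    rw [hu]
    exact hreg' _) (by
    intro ϑ hϑ
    rw [hΘc, Finset.mem_filter] at hϑ
    refine ⟨?_, hϑ.2⟩
    obtain ⟨j, -, rfl⟩ := Finset.mem_image.1 hϑ.1
    exact hbase' _)
  obtain ⟨N1, hN1⟩ : ∃ N1 : ℕ, N1 = N0 + 2 * N0 * (Θ.card * C * N0) + m' * (Θ.card * C * N0) :=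
    ⟨_, rfl⟩
  refine ⟨g, N1, hg, ?_⟩
  intro b
  have hb : b ∈ Algebra.adjoin k (Set.range x) := by
    rw [hx]
    exact Algebra.mem_top
  rw [Algebra.adjoin_range_eq_range_aeval] at hb
  obtain ⟨G, rfl⟩ := hb
  refine ⟨G.totalDegree * (NB * C2), ?_⟩
  intro E _ _ _ S φ hφ hφg
  obtain ⟨K, _, _, _, _, _, _, hrk, T, t, S', hTB, hTΞ, hTΘ, hS', hχK⟩ := hlift E S φ hφ hφg
  -- the specializations
  obtain ⟨φ', hφ'⟩ := sp_hom T hx' fun i => by
    rw [← hu]
    exact hTΞ _ (hΞu i)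
  have hreg : ∀ P ∉ S', ∀ b, Ge P 0 (φ' b) := by
    intro P hP b
    have hb : b ∈ Algebra.adjoin k (Set.range x') := by
      rw [hx']
      exact Algebra.mem_top
    induction hb using Algebra.adjoin_induction with
    | mem x hx =>
      obtain ⟨i, rfl⟩ := hx
      refine (hS' P hP).2 (u i) (Finset.mem_image_of_mem _ (Finset.mem_univ i)) _ ?_
      rw [hu]
      exact hφ' _
    | algebraMap c =>
      rw [AlgHom.commutes]
      exact Ge.const c
    | add x y _ _ hx hy =>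
      rw [map_add]
      exact hx.add hy
    | mul x y _ _ hx hy =>
      rw [map_mul]
      have := hx.mul hy
      rwa [add_zero] at this
  have hg'0 : φ' g' ≠ 0 := T.ne_zero (hφ' g') (hTΞ _ hΞg) fun h0 =>
    hg' (hinj' (h0.trans (map_zero _).symm))
  obtain ⟨Ht, hHtd⟩ : ∃ Ht : ℤ, Ht = ∑ ϑ ∈ Θ, hgt k (t ϑ) := ⟨_, rfl⟩
  have hHt0 : 0 ≤ Ht := by
    rw [hHtd]
    exact Finset.sum_nonneg fun _ _ => hgt_nonneg _
  obtain ⟨χK, hχKd⟩ : ∃ χK : ℤ, χK = max (canDeg k K + (S'.card : ℤ)) 0 := ⟨_, rfl⟩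
  have hχK0 : 0 ≤ χK := by
    rw [hχKd]
    exact le_max_right _ _
  have ha'h : ∀ j, hgt k (φ' (algebraMap B0' B' (a' j))) ≤ Ht := by
    intro j
    by_cases h0 : algebraMap B' M (algebraMap B0' B' (a' j)) = 0
    · rw [T.eq_zero (hφ' _) h0, hgt_algebraic isAlgebraic_zero]
      exact hHt0
    · have h1 : algebraMap B' M (algebraMap B0' B' (a' j)) ∈ Θ := by
        apply hΘ
        rw [hΘc, Finset.mem_filter]
        exact ⟨Finset.mem_image.2 ⟨j, Finset.mem_univ j, rfl⟩, h0⟩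
      rw [T.ext (hφ' _) (hTΘ _ h1).1, hHtd]
      exact Finset.single_le_sum (f := fun ϑ => hgt k (t ϑ)) (fun _ _ => hgt_nonneg _) h1
  have ha's : ∑ j, hgt k (φ' (algebraMap B0' B' (a' j))) ≤ m' * Ht := by
    refine (Finset.sum_le_sum fun j _ => ha'h j).trans ?_
    rw [Finset.sum_const, nsmul_eq_mul, Finset.card_univ, Fintype.card_fin]
  -- the heights
  have hfr1 : 1 ≤ Module.finrank E K := Module.finrank_pos
  have hα' : ∀ j, T.T (α j) (algebraMap E K (φ (algebraMap B0 B (a j)))) := by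
    intro j
    have h1 := hTB (algebraMap B0 B (a j))
    rw [← IsScalarTower.algebraMap_apply B0 B M] at h1
    rw [hα]
    exact h1
  have hξh : ∀ i, hgt k (algebraMap E K (φ (x i))) ≤ C2 * (∑ i, hgt k (φ' (x' i)) +
      ∑ j, hgt k (algebraMap E K (φ (algebraMap B0 B (a j))))) := by
    intro i
    have h1 := hC2 K T (fun ϑ hϑ => hTΞ ϑ (hΞh ϑ hϑ))
      (Fin.append (fun i => φ' (x' i)) fun j => algebraMap E K (φ (algebraMap B0 B (a j))))
      (fun j => by
      refine Fin.addCases (fun j => ?_) (fun j => ?_) j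
      · rw [Fin.append_left, Fin.append_left, hu]
        exact hφ' _
      · rw [Fin.append_right, Fin.append_right]
        exact hα' j) (ξ i) (Finset.mem_image_of_mem _ (Finset.mem_univ i)) _ (by
        rw [hξ]
        exact hTB (x i))
    rw [Fin.sum_univ_add] at h1
    simp only [Fin.append_left, Fin.append_right] at h1
    exact h1
  have hmv := hgt_mvpoly (k := k) (fun i => φ (x i)) G
  have hαh : ∀ j, hgt k (algebraMap E K (φ (algebraMap B0 B (a j)))) =
      Module.finrank E K * hgt k (φ (algebraMap B0 B (a j))) := fun j => hgt_algebraMap _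
  have hzh : ∀ i, hgt k (φ (x i)) ≤ hgt k (algebraMap E K (φ (x i))) := by
    intro i
    rw [hgt_algebraMap]
    have h1 : (1 : ℤ) ≤ Module.finrank E K := by exact_mod_cast hfr1
    have := hgt_nonneg (k := k) (φ (x i))
    nlinarith
  have hHa : ∑ j, hgt k (algebraMap E K (φ (algebraMap B0 B (a j)))) =
      Module.finrank E K * ∑ j, hgt k (φ (algebraMap B0 B (a j))) := by
    rw [Finset.mul_sum]
    exact Finset.sum_congr rfl fun j _ => hαh j
  have hHt : Ht ≤ Θ.card *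
      (C * ∑ j, hgt k (algebraMap E K (φ (algebraMap B0 B (a j))))) := by
    rw [hHtd]
    refine (Finset.sum_le_sum fun ϑ hϑ => (hTΘ ϑ hϑ).2.2).trans ?_
    rw [Finset.sum_const, nsmul_eq_mul]
  have hHz : ∑ i, hgt k (φ (x i)) ≤ NB * (C2 * (∑ i, hgt k (φ' (x' i)) +
      ∑ j, hgt k (algebraMap E K (φ (algebraMap B0 B (a j)))))) := by
    refine (Finset.sum_le_sum fun i _ => (hzh i).trans (hξh i)).trans ?_
    rw [Finset.sum_const, nsmul_eq_mul, Finset.card_univ, Fintype.card_fin]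
  have hχ0 : 0 ≤ max (canDeg k E + (S.card : ℤ)) 0 := le_max_right _ _
  have hHφ0 : 0 ≤ ∑ j, hgt k (φ (algebraMap B0 B (a j))) :=
    Finset.sum_nonneg fun _ _ => hgt_nonneg _
  have hfr1' : (1 : ℤ) ≤ Module.finrank E K := by exact_mod_cast hfr1
  have hrk' : (Module.finrank E K : ℤ) ≤ N0 := by exact_mod_cast hrk
  have hχK' : χK ≤ N0 * max (canDeg k E + (S.card : ℤ)) 0 + N0 * (2 * Ht) := by
    have hfr0 : (0 : ℤ) ≤ Module.finrank E K := by linarith
    have hN0 : (0 : ℤ) ≤ N0 := by linarith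
    rw [hχKd]
    refine max_le ?_ ?_
    · refine hχK.trans (add_le_add ?_ ?_)
      · exact (mul_le_mul_of_nonneg_left (le_max_left _ _) hfr0).trans
          (mul_le_mul_of_nonneg_right hrk' hχ0)
      · rw [hHtd] at hHt0 ⊢
        exact mul_le_mul_of_nonneg_right hrk' (by linarith)
    · have h1 := mul_nonneg hN0 hχ0
      have h2 := mul_nonneg hN0 (by linarith : 0 ≤ 2 * Ht)
      linarith
  have hG : φ (MvPolynomial.aeval x G) = MvPolynomial.aeval (fun i => φ (x i)) G := by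
    rw [MvPolynomial.comp_aeval_apply]
  obtain ⟨H, hH⟩ : ∃ H : ℤ, H = ∑ j, hgt k (φ (algebraMap B0 B (a j))) := ⟨_, rfl⟩
  obtain ⟨X, hX⟩ : ∃ X : ℤ, X = Θ.card * C * N0 := ⟨_, rfl⟩
  have hX0 : 0 ≤ X := by rw [hX]; positivity
  rw [← hH] at hHa hHφ0 ⊢
  have hHaN : ∑ j, hgt k (algebraMap E K (φ (algebraMap B0 B (a j)))) ≤ N0 * H := by
    rw [hHa]
    exact mul_le_mul_of_nonneg_right hrk' hHφ0
  have hHtX : Ht ≤ X * H := by
    refine hHt.trans ?_
    rw [hX]
    have h1 : (Θ.card : ℤ) * (C * ∑ j, hgt k (algebraMap E K (φ (algebraMap B0 B (a j))))) ≤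
        Θ.card * (C * (N0 * H)) :=
      mul_le_mul_of_nonneg_left (mul_le_mul_of_nonneg_left hHaN (by positivity)) (by positivity)
    linarith
  have hN1' : (N1 : ℤ) = N0 + 2 * N0 * X + m' * X := by
    rw [hN1, hX]
    push_cast
    ring
  have hN00 : (0 : ℤ) ≤ N0 := Int.natCast_nonneg _
  have hm00 : (0 : ℤ) ≤ m' := Int.natCast_nonneg _
  have hXH := mul_nonneg hX0 hHφ0
  have p1 : 0 ≤ (N0 : ℤ) * (X * H) := mul_nonneg hN00 hXH
  have p2 : 0 ≤ (m' : ℤ) * (X * H) := mul_nonneg hm00 hXH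
  have p3 : 0 ≤ (N0 : ℤ) * H := mul_nonneg hN00 hHφ0
  have p4 : 0 ≤ (N0 : ℤ) * X * max (canDeg k E + (S.card : ℤ)) 0 :=
    mul_nonneg (mul_nonneg hN00 hX0) hχ0
  have p5 : 0 ≤ (m' : ℤ) * X * max (canDeg k E + (S.card : ℤ)) 0 :=
    mul_nonneg (mul_nonneg hm00 hX0) hχ0
  have q1 : (N0 : ℤ) * (2 * Ht) ≤ N0 * (2 * (X * H)) :=
    mul_le_mul_of_nonneg_left (by linarith) hN00
  have q2 : (m' : ℤ) * Ht ≤ m' * (X * H) := mul_le_mul_of_nonneg_left hHtX hm00
  refine ⟨K, inferInstance, inferInstance, inferInstance, S', φ', fun b P hP => ?_, hg'0, ?_, ?_, ?_⟩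
  · rcases hreg P hP b with h3 | h3
    · rw [h3, P.ord_zero]
    · exact h3
  · rw [← hχKd, hN1']
    refine hχK'.trans ?_
    linarith
  · rw [hN1']
    refine ha's.trans ?_
    linarith
  · change hgt k (φ (MvPolynomial.aeval x G)) ≤ _
    rw [hG]
    refine hmv.trans ?_
    rw [Nat.cast_mul, mul_assoc]
    refine mul_le_mul_of_nonneg_left (hHz.trans ?_) (Int.natCast_nonneg _)
    rw [Nat.cast_mul, mul_assoc]
    refine mul_le_mul_of_nonneg_left (mul_le_mul_of_nonneg_left ?_ (Int.natCast_nonneg _))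
      (Int.natCast_nonneg _)
    rw [hN1']
    linarith

/-- correspondences and the relative height inequality -/
theorem corr {k B0 B B0' B' M : Type} [Field k] [IsAlgClosed k] [CharZero k] [CommRing B0]
    [CommRing B] [CommRing B0'] [CommRing B'] [Field M] [Algebra k B0] [Algebra k B]
    [Algebra k B0'] [Algebra k B'] [Algebra.FiniteType k B] [Algebra.FiniteType k B0']
    [Algebra.FiniteType k B'] [Algebra k M]
    [Algebra B0 B] [Algebra B0 M] [Algebra B M] [Algebra B0' B'] [Algebra B' M]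
    [IsScalarTower k B0 B] [IsScalarTower k B M] [IsScalarTower B0 B M] [IsScalarTower k B' M]
    {Ω : IntermediateField k M} (h : Covering B0 B Ω)
    (hinj' : Function.Injective (algebraMap B' M))
    (hbase' : ∀ b : B0', algebraMap B' M (algebraMap B0' B' b) ∈ Ω)
    (hreg' : ∀ b : B', IntOver B Ω (algebraMap B' M b))
    (hfin : ∀ w : M, IsAlgebraic (IntermediateField.adjoin Ω (Set.range (algebraMap B' M))) w)
    (hR : RelativeBound k B0' B') {m : ℕ}
    (a : Fin m → B0) (ha : Algebra.adjoin k (Set.range a) = ⊤) :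
    ∃ g : B, g ≠ 0 ∧ ∀ b : B, ∃ A : ℕ, ∀ (E : Type) [Field E] [Algebra k E] [IsFF k E]
      (S : Finset (Place k E)) (φ : B →ₐ[k] E), (∀ b, ∀ P ∉ S, 0 ≤ P.ord (φ b)) → φ g ≠ 0 →
        hgt k (φ b) ≤ A * (max (canDeg k E + S.card) 0 +
          ∑ j, hgt k (φ (algebraMap B0 B (a j)))) := by
  classical
  obtain ⟨N', x', hx'⟩ := exists_gens k B'
  obtain ⟨m', a', ha'⟩ := exists_gens k B0'
  obtain ⟨g', hg', hA'⟩ := hR m' a' ha'
  choose A' hA' using hA'
  obtain ⟨g, N1, hg, hD⟩ := corr_gen h hinj' hbase' hreg' hfin a ha x' hx' a' g' hg'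
  refine ⟨g, hg, fun b => ?_⟩
  obtain ⟨D, hD⟩ := hD b
  refine ⟨D * ((∑ i, A' (x' i)) * (2 * N1) + N1), ?_⟩
  intro E _ _ _ S φ hφ hφg
  obtain ⟨K, _, _, _, S', φ', h1, h2, h3, h4, h5⟩ := hD E S φ hφ hφg
  obtain ⟨H, hH⟩ : ∃ H : ℤ, H = ∑ j, hgt k (φ (algebraMap B0 B (a j))) := ⟨_, rfl⟩
  have hH0 : 0 ≤ H := by
    rw [hH]
    exact Finset.sum_nonneg fun _ _ => hgt_nonneg _
  obtain ⟨χ, hχ⟩ : ∃ χ : ℤ, χ = max (canDeg k E + (S.card : ℤ)) 0 := ⟨_, rfl⟩
  have hχ0 : 0 ≤ χ := by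
    rw [hχ]
    exact le_max_right _ _
  rw [← hH, ← hχ] at h3
  rw [← hH] at h4 h5
  rw [← hH, ← hχ]
  have hN1 : (0 : ℤ) ≤ N1 := Int.natCast_nonneg _
  have h6 : ∀ i, hgt k (φ' (x' i)) ≤ A' (x' i) * (2 * N1 * (χ + H)) := by
    intro i
    refine (hA' (x' i) K S' φ' (fun P hP => Or.inl fun b => h1 b P hP) h2).trans
      (mul_le_mul_of_nonneg_left ?_ (Int.natCast_nonneg _))
    have h7 := mul_nonneg hN1 hχ0
    linarith
  have h7 : ∑ i, hgt k (φ' (x' i)) ≤ (∑ i, A' (x' i) : ℕ) * (2 * N1 * (χ + H)) := by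
    refine (Finset.sum_le_sum fun i _ => h6 i).trans ?_
    rw [← Finset.sum_mul]
    push_cast
    exact le_rfl
  refine h5.trans ?_
  rw [Nat.cast_mul, mul_assoc]
  refine mul_le_mul_of_nonneg_left ?_ (Int.natCast_nonneg _)
  have h8 := mul_nonneg hN1 hχ0
  push_cast at h7 ⊢
  linarith

end Pool.Agent.K4H62.VA
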