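import Pool.Agent.K4H62.VA.OrbDefs
import Pool.Agent.K4H62.HF.TMain

/-!
Maps to orbifold curves.
-/

set_option autoImplicit false
set_option linter.overlappingInstances false
set_option linter.unusedSectionVars false

open FF Pool.Agent.W603.LV Pool.Agent.W603.PV Pool.Agent.K4H62.HF
open Pool.Agent.TH466.QG
open Pool.Agent.Y221.AH (sum_ram)

namespace Pool.Agent.K4H62.VA

section rh

variable {k E K : Type} [Field k] [IsAlgClosed k] [CharZero k] [Field E] [Field K] [Algebra k E]
  [Algebra k K] [Algebra E K] [IsScalarTower k E K] [IsFF k E] [IsFF k K] [FiniteDimensional E K]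

/-- **Riemann-Hurwitz for orbifold curves.** -/
theorem orb_rh (Q : Finset (Place k E)) (m : Place k E → ℕ) (S : Finset (Place k K))
    (h : ∀ P, P ∉ S → under E P ∈ Q → m (under E P) ≠ 0 ∧ m (under E P) ≤ ram E P) :
    (Module.finrank E K : ℚ) * ((canDeg k E : ℚ) + ∑ c ∈ Q, (1 - 1 / (m c : ℚ))) ≤
      (canDeg k K : ℚ) + S.card := by
  classical
  choose V hV hVsum using fun v : Place k E => sum_ram (L := K) v
  obtain ⟨n, hn⟩ : ∃ n : ℕ, n = Module.finrank E K := ⟨_, rfl⟩
  rw [← hn]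
  -- disjointness
  have hdisj : ∀ c ∈ Q, ∀ c' ∈ Q, c ≠ c' → Disjoint (V c) (V c') := by
    intro c _ c' _ hcc
    rw [Finset.disjoint_left]
    intro P h1 h2
    exact hcc (((hV c P).1 h1).symm.trans ((hV c' P).1 h2))
  have hpd : (Q : Set (Place k E)).PairwiseDisjoint V := fun c hc c' hc' hcc =>
    hdisj c hc c' hc' hcc
  -- the discriminant
  have h1 : ∑ c ∈ Q, ((n : ℤ) - (V c).card) ≤ disc k E K := by
    have e1 : ∑ c ∈ Q, ((n : ℤ) - (V c).card) = ∑ P ∈ Q.biUnion V, ((ram E P : ℤ) - 1) := by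
      rw [Finset.sum_biUnion hpd]
      refine Finset.sum_congr rfl fun c _ => ?_
      rw [Finset.sum_sub_distrib, hVsum, ← hn, Finset.sum_const, nsmul_eq_mul, mul_one]
    rw [e1]
    have hfin := ram_finite (k := k) (F := E) (L := K)
    have e2 : disc k E K = ∑ P ∈ Q.biUnion V ∪ hfin.toFinset, ((ram E P : ℤ) - 1) := by
      unfold disc
      rw [finsum_eq_sum_of_support_subset]
      intro P hP
      rw [Finset.mem_coe, Finset.mem_union]
      right
      rw [Set.Finite.mem_toFinset]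
      exact hP
    rw [e2]
    refine Finset.sum_le_sum_of_subset_of_nonneg Finset.subset_union_left fun P _ _ => ?_
    have := (ram_spec (F := E) P).1
    omega
  have h2 : (canDeg k K : ℚ) = disc k E K + n * canDeg k E := by
    rw [canDeg_ext (E := E), hn]
    push_cast
    ring
  -- the points over `c`
  have h3 : ∀ c ∈ Q, ((V c \ S).card : ℚ) ≤ n * (1 / (m c : ℚ)) := by
    intro c hc
    by_cases h0 : V c \ S = ∅
    · rw [h0, Finset.card_empty, Nat.cast_zero]
      positivity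
    obtain ⟨P, hP⟩ := Finset.nonempty_iff_ne_empty.2 h0
    have hm0 : m c ≠ 0 := by
      rw [Finset.mem_sdiff] at hP
      have h4 := (hV c P).1 hP.1
      have h5 := (h P hP.2 (by rw [h4]; exact hc)).1
      rwa [h4] at h5
    have h5 : ∑ P ∈ V c \ S, (m c : ℤ) ≤ n := by
      rw [hn, ← hVsum c]
      refine (Finset.sum_le_sum fun P hP => ?_).trans
        (Finset.sum_le_sum_of_subset_of_nonneg Finset.sdiff_subset
          fun _ _ _ => Int.natCast_nonneg _)
      rw [Finset.mem_sdiff] at hP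
      have h4 := (hV c P).1 hP.1
      have h5 := (h P hP.2 (by rw [h4]; exact hc)).2
      rw [h4] at h5
      exact_mod_cast h5
    rw [Finset.sum_const, nsmul_eq_mul] at h5
    have h6 : (((V c \ S).card : ℤ) : ℚ) * ((m c : ℤ) : ℚ) ≤ ((n : ℤ) : ℚ) := by exact_mod_cast h5
    push_cast at h6
    have hm1 : (0 : ℚ) < m c := by
      have : 0 < m c := Nat.pos_of_ne_zero hm0
      exact_mod_cast this
    rw [mul_one_div, le_div_iff₀ hm1]
    exact h6
  have h4 : ∑ c ∈ Q, (((V c ∩ S).card : ℕ) : ℚ) ≤ S.card := by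
    have e1 : ∑ c ∈ Q, (V c ∩ S).card = (Q.biUnion fun c => V c ∩ S).card := by
      rw [Finset.card_biUnion]
      intro c hc c' hc' hcc
      exact (hdisj c hc c' hc' hcc).mono Finset.inter_subset_left Finset.inter_subset_left
    have e2 : (Q.biUnion fun c => V c ∩ S).card ≤ S.card := by
      refine Finset.card_le_card ?_
      intro P hP
      obtain ⟨c, -, hP⟩ := Finset.mem_biUnion.1 hP
      exact (Finset.mem_inter.1 hP).2
    rw [← e1] at e2
    exact_mod_cast e2
  have h5 : ∀ c ∈ Q, (n : ℚ) * (1 - 1 / (m c : ℚ)) ≤ ((n : ℚ) - (V c).card) + (V c ∩ S).card := by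
    intro c hc
    have e1 := h3 c hc
    have e2 : ((V c).card : ℚ) = (V c ∩ S).card + (V c \ S).card := by
      exact_mod_cast (Finset.card_inter_add_card_sdiff (V c) S).symm
    rw [e2]
    linarith
  have h6 := Finset.sum_le_sum h5
  rw [← Finset.mul_sum, Finset.sum_add_distrib] at h6
  have h7 : ((∑ c ∈ Q, ((n : ℤ) - (V c).card) : ℤ) : ℚ) ≤ ((disc k E K : ℤ) : ℚ) := by
    exact_mod_cast h1
  push_cast at h7
  rw [h2, mul_add]
  linarith

end rh

section bound

variable {k R B B1 E1 E : Type} [Field k] [IsAlgClosed k] [CharZero k] [CommRing R] [CommRing B]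
  [CommRing B1] [Field E1] [Field E] [Algebra k B] [Algebra k B1] [Algebra k E1] [Algebra k E]
  [Algebra R B] [Algebra B1 B] [Algebra B1 E1] [IsScalarTower k B1 B] [IsScalarTower k B1 E1]
  [IsFractionRing B1 E1] [IsFF k E1]

/-- Pullbacks of functions on hyperbolic orbifold curves. -/
theorem orb_bound {Q : Finset (Place k E1)} {m : Place k E1 → ℕ}
    (h : OrbifoldCurve k R B B1 E1 Q m) (b : B1) : ∃ A : ℕ, ∀ (E : Type) [Field E] [Algebra k E]
      [IsFF k E] (S : Finset (Place k E)) (φ : B →ₐ[k] E),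
      (∀ r : R, ∀ P ∉ S, 0 ≤ P.ord (φ (algebraMap R B r))) →
      hgt k (φ (algebraMap B1 B b)) ≤ A * max (canDeg k E + S.card) 0 := by
  classical
  obtain ⟨hpos, hm⟩ := h
  obtain ⟨ε, hε⟩ : ∃ ε : ℚ, ε = (canDeg k E1 : ℚ) + ∑ c ∈ Q, (1 - 1 / (m c : ℚ)) := ⟨_, rfl⟩
  rw [← hε] at hpos
  obtain ⟨D, hD⟩ := exists_nat_ge (1 / ε)
  refine ⟨(hgt k (algebraMap B1 E1 b)).toNat * D, ?_⟩
  intro E _ _ _ S φ hS
  have hinj : Function.Injective (algebraMap B1 E1) := IsFractionRing.injective B1 E1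
  obtain ⟨φ0, hφ0⟩ : ∃ φ0 : B1 →ₐ[k] E, φ0 = φ.comp (IsScalarTower.toAlgHom k B1 B) := ⟨_, rfl⟩
  have hφ0' : ∀ x, φ0 x = φ (algebraMap B1 B x) := fun x => by
    rw [hφ0]
    rfl
  have hχ0 : 0 ≤ max (canDeg k E + (S.card : ℤ)) 0 := le_max_right _ _
  rw [← hφ0']
  by_cases hφ : Function.Injective φ0
  · let j : E1 →+* E := IsFractionRing.lift hφ
    let _ : Algebra E1 E := j.toAlgebra
    have hj : ∀ x : B1, algebraMap E1 E (algebraMap B1 E1 x) = φ0 x := fun x =>
      IsFractionRing.lift_algebraMap (K := E1) hφ x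
    have hst : IsScalarTower k E1 E := IsScalarTower.of_algebraMap_eq fun c => by
      rw [IsScalarTower.algebraMap_apply k B1 E1, hj, AlgHom.commutes]
    have hfin : FiniteDimensional E1 E := finite_ff (k := k)
    have h1 := orb_rh (E := E1) (K := E) Q m S fun P hP hPQ =>
      hm E φ (fun x => by rw [hj, hφ0']) P (fun r => hS r P hP) _ hPQ (ram E1 P)
        (ram_spec (F := E1) P).1 (fun x => ord_under (F := E1) P x)
    rw [← hε] at h1
    have h2 : (canDeg k E : ℚ) + S.card ≤ ((max (canDeg k E + (S.card : ℤ)) 0 : ℤ) : ℚ) := by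
      have := le_max_left (canDeg k E + (S.card : ℤ)) 0
      exact_mod_cast this
    have h3 : (Module.finrank E1 E : ℚ) ≤ D * ((max (canDeg k E + (S.card : ℤ)) 0 : ℤ) : ℚ) := by
      have e1 : (Module.finrank E1 E : ℚ) * ε ≤
          ((max (canDeg k E + (S.card : ℤ)) 0 : ℤ) : ℚ) := h1.trans h2
      have e2 : (Module.finrank E1 E : ℚ) ≤
          ((max (canDeg k E + (S.card : ℤ)) 0 : ℤ) : ℚ) * (1 / ε) := by
        rw [mul_one_div, le_div_iff₀ hpos]
        exact e1
      refine e2.trans ?_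
      rw [mul_comm]
      refine mul_le_mul_of_nonneg_right hD ?_
      exact_mod_cast hχ0
    have h4 : (Module.finrank E1 E : ℤ) ≤ D * max (canDeg k E + (S.card : ℤ)) 0 := by
      exact_mod_cast h3
    have h5 := hgt_algebraMap (k := k) (F := E1) (L := E) (algebraMap B1 E1 b)
    rw [hj] at h5
    rw [h5]
    have h6 := hgt_nonneg (k := k) (algebraMap B1 E1 b)
    rw [Nat.cast_mul, Int.toNat_of_nonneg h6, mul_assoc, mul_comm]
    exact mul_le_mul_of_nonneg_left h4 h6
  · obtain ⟨c, hc, hφc⟩ : ∃ c : B1, c ≠ 0 ∧ φ0 c = 0 := by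
      by_contra hcon
      push Not at hcon
      apply hφ
      rw [injective_iff_map_eq_zero]
      intro c h0
      by_contra hc
      exact hcon c hc h0
    rw [hgt_algebraic (kernel_alg hinj φ0 hc hφc b)]
    exact mul_nonneg (Int.natCast_nonneg _) hχ0

end bound

section base

variable {k R B0 B : Type} [Field k] [IsAlgClosed k] [CharZero k] [CommRing R] [CommRing B0]
  [CommRing B] [Algebra k B0] [Algebra k B] [Algebra R B] [Algebra B0 B] [IsScalarTower k B0 B]

theorem hgt_two {E : Type} [Field E] [Algebra k E] [IsFF k E] (x y : E)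
    (G : MvPolynomial (Fin 2) k) :
    hgt k (MvPolynomial.aeval ![x, y] G) ≤ G.totalDegree * (hgt k x + hgt k y) := by
  have := hgt_mvpoly (k := k) ![x, y] G
  rw [Fin.sum_univ_two] at this
  exact this

theorem orbifold_base [Nontrivial B] (h : OrbifoldBase k R B0 B) : BoundedBase k R B0 B := by
  classical
  refine ⟨1, one_ne_zero, fun b => ?_⟩
  suffices h' : ∃ A : ℕ, ∀ (E : Type) [Field E] [Algebra k E] [IsFF k E]
      (S : Finset (Place k E)) (φ : B →ₐ[k] E),
      (∀ r : R, ∀ P ∉ S, 0 ≤ P.ord (φ (algebraMap R B r))) →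
      hgt k (φ (algebraMap B0 B b)) ≤ A * max (canDeg k E + S.card) 0 by
    obtain ⟨A, hA⟩ := h'
    exact ⟨A, fun E _ _ _ S φ hS _ => hA E S φ hS⟩
  have hb : b ∈ Algebra.adjoin k {a : B0 | FromCurve k R (algebraMap B0 B a)} := by
    have h' : Algebra.adjoin k {a : B0 | FromCurve k R (algebraMap B0 B a)} = ⊤ := h
    rw [h']
    exact Algebra.mem_top
  induction hb using Algebra.adjoin_induction with
  | mem x hx =>
    obtain ⟨B1, E1, i1, i2, i3, i4, i5, i6, i7, i8, i9, i10, Q, m, h1, y, hy⟩ := hx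
    obtain ⟨A, hA⟩ := orb_bound h1 y
    refine ⟨A, fun E _ _ _ S φ hS => ?_⟩
    rw [← hy]
    exact hA E S φ hS
  | algebraMap c =>
    refine ⟨0, fun E _ _ _ S φ hS => ?_⟩
    rw [← IsScalarTower.algebraMap_apply k B0 B, AlgHom.commutes,
      hgt_algebraic (isAlgebraic_algebraMap c)]
    simp
  | add x y _ _ hx hy =>
    obtain ⟨A, hA⟩ := hx
    obtain ⟨A', hA'⟩ := hy
    refine ⟨(MvPolynomial.X 0 + MvPolynomial.X 1 : MvPolynomial (Fin 2) k).totalDegree * (A + A'),
      fun E _ _ _ S φ hS => ?_⟩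
    have h1 := hgt_two (k := k) (φ (algebraMap B0 B x)) (φ (algebraMap B0 B y))
      (MvPolynomial.X 0 + MvPolynomial.X 1)
    rw [map_add, MvPolynomial.aeval_X, MvPolynomial.aeval_X] at h1
    simp only [Matrix.cons_val_zero, Matrix.cons_val_one] at h1
    rw [map_add, map_add]
    refine h1.trans ?_
    rw [Nat.cast_mul, mul_assoc]
    refine mul_le_mul_of_nonneg_left ?_ (Int.natCast_nonneg _)
    rw [Nat.cast_add, add_mul]
    exact add_le_add (hA E S φ hS) (hA' E S φ hS)
  | mul x y _ _ hx hy =>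
    obtain ⟨A, hA⟩ := hx
    obtain ⟨A', hA'⟩ := hy
    refine ⟨(MvPolynomial.X 0 * MvPolynomial.X 1 : MvPolynomial (Fin 2) k).totalDegree * (A + A'),
      fun E _ _ _ S φ hS => ?_⟩
    have h1 := hgt_two (k := k) (φ (algebraMap B0 B x)) (φ (algebraMap B0 B y))
      (MvPolynomial.X 0 * MvPolynomial.X 1)
    rw [map_mul, MvPolynomial.aeval_X, MvPolynomial.aeval_X] at h1
    simp only [Matrix.cons_val_zero, Matrix.cons_val_one] at h1
    rw [map_mul, map_mul]
    refine h1.trans ?_
    rw [Nat.cast_mul, mul_assoc]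
    refine mul_le_mul_of_nonneg_left ?_ (Int.natCast_nonneg _)
    rw [Nat.cast_add, add_mul]
    exact add_le_add (hA E S φ hS) (hA' E S φ hS)

end base

end Pool.Agent.K4H62.VA
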