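import Pool.Agent.K4H62.VA.ClDefs
import Pool.Agent.K4H62.VA.Corr
import Pool.Agent.K4H62.VA.Orb

/-!
The height inequality for the class of morphisms; the conjecture of Lang and Vojta.
-/

set_option autoImplicit false
set_option linter.overlappingInstances false
set_option linter.unusedSectionVars false

open FF Pool.Agent.W603.LV Pool.Agent.W603.PV Pool.Agent.K4H62.HF

namespace Pool.Agent.K4H62.VA

section steps

variable {k : Type} [Field k] [IsAlgClosed k] [CharZero k]

theorem mfibration {B0 B : Type} [CommRing B0] [CommRing B] [Algebra k B0] [Algebra k B]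
    [Algebra B0 B] (h : MFibration k B0 B) : RelativeBound k B0 B := by
  obtain ⟨h1, h2, h3, M, i1, i2, i3, i4, i5, i6, Ω, h, N, U, u, hu⟩ := h
  exact fun m a ha => weaken a (relative_va h hu a ha)

theorem correspondence {B0 B B0' B' : Type} [CommRing B0] [CommRing B] [CommRing B0']
    [CommRing B'] [Algebra k B0] [Algebra k B] [Algebra k B0'] [Algebra k B'] [Algebra B0 B]
    [Algebra B0' B'] (h : Correspondence k B0 B B0' B') (hR : RelativeBound k B0' B') :
    RelativeBound k B0 B := by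
  obtain ⟨h1, h2, h3, h4, h5, M, i1, i2, i3, i4, i5, i6, i7, i8, Ω, h, h6, h7, h8, h9⟩ := h
  exact fun m a ha => weaken a (corr h h6 h7 h8 h9 hR a ha)

/-- heights of polynomials in the generators -/
theorem hgt_gen {B0 B : Type} [CommRing B0] [CommRing B] [Algebra k B0] [Algebra k B]
    [Algebra B0 B] [IsScalarTower k B0 B] {m : ℕ} {a : Fin m → B0}
    (ha : Algebra.adjoin k (Set.range a) = ⊤) (c : B0) : ∃ D : ℕ, ∀ (E : Type) [Field E]
      [Algebra k E] [IsFF k E] (φ : B →ₐ[k] E), hgt k (φ (algebraMap B0 B c)) ≤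
        D * ∑ j, hgt k (φ (algebraMap B0 B (a j))) := by
  have hb : c ∈ Algebra.adjoin k (Set.range a) := by
    rw [ha]
    exact Algebra.mem_top
  rw [Algebra.adjoin_range_eq_range_aeval] at hb
  obtain ⟨G, rfl⟩ := hb
  refine ⟨G.totalDegree, fun E _ _ _ φ => ?_⟩
  have h1 : φ (algebraMap B0 B (MvPolynomial.aeval a G)) =
      MvPolynomial.aeval (fun i => φ (algebraMap B0 B (a i))) G := by
    have h2 : φ (algebraMap B0 B (MvPolynomial.aeval a G)) =
      (φ.comp (IsScalarTower.toAlgHom k B0 B)) (MvPolynomial.aeval a G) := rfl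
    rw [h2, MvPolynomial.comp_aeval_apply]
    rfl
  change hgt k (φ (algebraMap B0 B (MvPolynomial.aeval a G))) ≤ _
  rw [h1]
  exact hgt_mvpoly (k := k) _ G

/-- finite morphisms -/
theorem finite_rel {B0 B : Type} [CommRing B0] [CommRing B] [Algebra k B0] [Algebra k B]
    [Algebra B0 B] (hd : Dominant k B0 B) (halg : Algebra.IsAlgebraic B0 B) :
    RelativeBound k B0 B := by
  classical
  have h1 := hd.ft
  have h2 := hd.tower
  have h3 := hd.dom
  intro m a ha
  choose D hD using hgt_gen (k := k) (B := B) ha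
  obtain ⟨N, x, hx⟩ := exists_gens k B
  choose p hp0 hp using fun i => halg.isAlgebraic (x i)
  have hl0 : ∀ i, algebraMap B0 B (p i).leadingCoeff ≠ 0 := fun i h0 =>
    hp0 i (Polynomial.leadingCoeff_eq_zero.1 (hd.inj (h0.trans (map_zero _).symm)))
  refine ⟨∏ i, algebraMap B0 B (p i).leadingCoeff, Finset.prod_ne_zero_iff.2 fun i _ => hl0 i, ?_⟩
  intro b
  have hb : b ∈ Algebra.adjoin k (Set.range x) := by
    rw [hx]
    exact Algebra.mem_top
  rw [Algebra.adjoin_range_eq_range_aeval] at hb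
  obtain ⟨G, rfl⟩ := hb
  refine ⟨G.totalDegree * ∑ i, ∑ j ∈ Finset.range ((p i).natDegree + 1), D ((p i).coeff j), ?_⟩
  intro E _ _ _ S φ _ hφ
  rw [map_prod] at hφ
  have hφl : ∀ i, φ (algebraMap B0 B (p i).leadingCoeff) ≠ 0 := fun i =>
    Finset.prod_ne_zero_iff.1 hφ i (Finset.mem_univ i)
  obtain ⟨H, hH⟩ : ∃ H : ℤ, H = ∑ j, hgt k (φ (algebraMap B0 B (a j))) := ⟨_, rfl⟩
  have hH0 : 0 ≤ H := by
    rw [hH]
    exact Finset.sum_nonneg fun _ _ => hgt_nonneg _
  have h0 : ∀ c : B0, hgt k (φ (algebraMap B0 B c)) ≤ D c * H := fun c => by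
    rw [hH]
    exact hD c E φ
  have hxi : ∀ i, hgt k (φ (x i)) ≤
      (∑ j ∈ Finset.range ((p i).natDegree + 1), D ((p i).coeff j) : ℕ) * H := by
    intro i
    have hrel : ∑ j ∈ Finset.range ((p i).natDegree + 1),
        φ (algebraMap B0 B ((p i).coeff j)) * φ (x i) ^ j = 0 := by
      have h1 := congrArg φ (hp i)
      rw [Polynomial.aeval_eq_sum_range, map_sum, map_zero] at h1
      rw [← h1]
      refine Finset.sum_congr rfl fun j _ => ?_
      rw [Algebra.smul_def, map_mul, map_pow]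
    have h1 := hgt_root (k := k) (fun j => φ (algebraMap B0 B ((p i).coeff j))) (hφl i) _ hrel
    have h2 : hgt k (φ (algebraMap B0 B ((p i).coeff (p i).natDegree))) +
        ∑ j ∈ Finset.range (p i).natDegree, hgt k (φ (algebraMap B0 B ((p i).coeff j))) =
        ∑ j ∈ Finset.range ((p i).natDegree + 1),
          hgt k (φ (algebraMap B0 B ((p i).coeff j))) := by
      rw [Finset.sum_range_succ, add_comm]
    rw [h2] at h1
    refine h1.trans ((Finset.sum_le_sum fun j _ => h0 _).trans ?_)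
    rw [← Finset.sum_mul]
    push_cast
    exact le_rfl
  change hgt k (φ (MvPolynomial.aeval x G)) ≤ _
  have h3 : φ (MvPolynomial.aeval x G) = MvPolynomial.aeval (fun i => φ (x i)) G := by
    rw [MvPolynomial.comp_aeval_apply]
  rw [h3, ← hH]
  refine (hgt_mvpoly (k := k) _ G).trans ?_
  have h4 : ∑ i, hgt k (φ (x i)) ≤
      ((∑ i, ∑ j ∈ Finset.range ((p i).natDegree + 1), D ((p i).coeff j) : ℕ) : ℤ) * H := by
    refine (Finset.sum_le_sum fun i _ => hxi i).trans ?_
    rw [← Finset.sum_mul]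
    push_cast
    exact le_rfl
  have h5 : (0 : ℤ) ≤ max (canDeg k E + S.card) 0 := le_max_right _ _
  rw [Nat.cast_mul, mul_assoc]
  refine mul_le_mul_of_nonneg_left (h4.trans ?_) (Int.natCast_nonneg _)
  exact mul_le_mul_of_nonneg_left (by linarith) (Int.natCast_nonneg _)

/-- compositions -/
theorem comp_rel {B0 B1 B : Type} [CommRing B0] [CommRing B1] [CommRing B] [Algebra k B0]
    [Algebra k B1] [Algebra k B] [Algebra B0 B1] [Algebra B1 B] [Algebra B0 B]
    [IsScalarTower B0 B1 B] (d1 : Dominant k B0 B1) (d2 : Dominant k B1 B)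
    (h1 : RelativeBound k B0 B1) (h2 : RelativeBound k B1 B) : RelativeBound k B0 B := by
  classical
  have i1 := d1.ft
  have i2 := d1.tower
  have i3 := d2.tower
  have i4 := d2.dom
  intro m a ha
  obtain ⟨n, c, hc⟩ := exists_gens k B1
  obtain ⟨g1, hg1, hA1⟩ := h1 m a ha
  choose A1 hA1 using hA1
  obtain ⟨g2, hg2, hA2⟩ := h2 n c hc
  refine ⟨algebraMap B1 B g1 * g2, mul_ne_zero (fun h0 => hg1 (d2.inj
    (h0.trans (map_zero _).symm))) hg2, ?_⟩
  intro b
  obtain ⟨A2, hA2⟩ := hA2 b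
  refine ⟨A2 * (1 + ∑ j, A1 (c j)), ?_⟩
  intro E _ _ _ S φ hS hφ
  rw [map_mul] at hφ
  let φ1 : B1 →ₐ[k] E := φ.comp (IsScalarTower.toAlgHom k B1 B)
  have hφ1 : ∀ x : B0, φ1 (algebraMap B0 B1 x) = φ (algebraMap B0 B x) := by
    intro x
    change φ (algebraMap B1 B (algebraMap B0 B1 x)) = _
    rw [← IsScalarTower.algebraMap_apply B0 B1 B]
  obtain ⟨X, hX⟩ : ∃ X : ℤ, X = max (canDeg k E + (S.card : ℤ)) 0 +
    ∑ j, hgt k (φ (algebraMap B0 B (a j))) := ⟨_, rfl⟩
  have e1 : ∀ x : B1, hgt k (φ (algebraMap B1 B x)) ≤ A1 x * X := by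
    intro x
    have h3 := hA1 x E S φ1 (by
      intro P hP
      rcases hS P hP with h4 | ⟨j, hj⟩
      · exact Or.inl fun y => h4 _
      · right
        refine ⟨j, ?_⟩
        rw [hφ1]
        exact hj) (left_ne_zero_of_mul hφ)
    have h4 : ∑ j, hgt k (φ1 (algebraMap B0 B1 (a j))) =
        ∑ j, hgt k (φ (algebraMap B0 B (a j))) :=
      Finset.sum_congr rfl fun j _ => by rw [hφ1]
    rw [h4, ← hX] at h3
    exact h3
  have e2 := hA2 E S φ (by
    intro P hP
    rcases hS P hP with h4 | ⟨j, hj⟩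
    · exact Or.inl h4
    · right
      by_contra hcon
      push Not at hcon
      have h5 : Ge P 0 (φ (algebraMap B1 B (algebraMap B0 B1 (a j)))) := by
        have hmem : algebraMap B0 B1 (a j) ∈ Algebra.adjoin k (Set.range c) := by
          rw [hc]
          exact Algebra.mem_top
        generalize algebraMap B0 B1 (a j) = y at hmem
        induction hmem using Algebra.adjoin_induction with
        | mem x hx =>
          obtain ⟨i, rfl⟩ := hx
          exact Or.inr (hcon i)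
        | algebraMap c =>
          rw [← IsScalarTower.algebraMap_apply k B1 B, AlgHom.commutes]
          exact Ge.const c
        | add x y _ _ hx hy =>
          rw [map_add, map_add]
          exact hx.add hy
        | mul x y _ _ hx hy =>
          rw [map_mul, map_mul]
          have := hx.mul hy
          rwa [add_zero] at this
      rw [← IsScalarTower.algebraMap_apply B0 B1 B] at h5
      rcases h5 with h5 | h5
      · rw [h5, P.ord_zero] at hj
        omega
      · omega) (right_ne_zero_of_mul hφ)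
  rw [← hX]
  have hH0 : 0 ≤ ∑ j, hgt k (φ (algebraMap B0 B (a j))) :=
    Finset.sum_nonneg fun _ _ => hgt_nonneg _
  have e3 : ∑ i, hgt k (φ (algebraMap B1 B (c i))) ≤ ((∑ i, A1 (c i) : ℕ) : ℤ) * X := by
    refine (Finset.sum_le_sum fun i _ => e1 (c i)).trans ?_
    rw [← Finset.sum_mul]
    push_cast
    exact le_rfl
  have e4 : max (canDeg k E + (S.card : ℤ)) 0 ≤ X := by
    rw [hX]
    linarith
  refine e2.trans ?_
  rw [Nat.cast_mul, mul_assoc]
  refine mul_le_mul_of_nonneg_left ?_ (Int.natCast_nonneg _)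
  push_cast at e3 ⊢
  linarith

/-- joins -/
theorem join_gens {B1 B2 B : Type} [CommRing B1] [CommRing B2] [CommRing B] [Algebra k B1]
    [Algebra k B2] [Algebra k B] [Algebra B1 B] [Algebra B2 B] (j : Joins k B1 B2 B)
    {n1 n2 : ℕ} {c1 : Fin n1 → B1} (hc1 : Algebra.adjoin k (Set.range c1) = ⊤) {c2 : Fin n2 → B2}
    (hc2 : Algebra.adjoin k (Set.range c2) = ⊤) :
    Algebra.adjoin k (Set.range (Fin.append (fun i => algebraMap B1 B (c1 i))
      fun i => algebraMap B2 B (c2 i))) = ⊤ := by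
  have i1 := j.tower1
  have i2 := j.tower2
  obtain ⟨A, hA⟩ : ∃ A : Subalgebra k B, A = Algebra.adjoin k (Set.range (Fin.append
    (fun i => algebraMap B1 B (c1 i)) fun i => algebraMap B2 B (c2 i))) := ⟨_, rfl⟩
  rw [← hA, eq_top_iff, ← j.gen, Algebra.adjoin_le_iff]
  rintro _ (⟨b, rfl⟩ | ⟨b, rfl⟩)
  · have hb : b ∈ Algebra.adjoin k (Set.range c1) := by
      rw [hc1]
      exact Algebra.mem_top
    rw [SetLike.mem_coe]
    induction hb using Algebra.adjoin_induction with
    | mem x hx =>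
      obtain ⟨i, rfl⟩ := hx
      rw [hA]
      exact Algebra.subset_adjoin ⟨Fin.castAdd n2 i, Fin.append_left _ _ i⟩
    | algebraMap c =>
      rw [← IsScalarTower.algebraMap_apply k B1 B]
      exact algebraMap_mem _ _
    | add x y _ _ hx hy =>
      rw [map_add]
      exact add_mem hx hy
    | mul x y _ _ hx hy =>
      rw [map_mul]
      exact mul_mem hx hy
  · have hb : b ∈ Algebra.adjoin k (Set.range c2) := by
      rw [hc2]
      exact Algebra.mem_top
    rw [SetLike.mem_coe]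
    induction hb using Algebra.adjoin_induction with
    | mem x hx =>
      obtain ⟨i, rfl⟩ := hx
      rw [hA]
      exact Algebra.subset_adjoin ⟨Fin.natAdd n1 i, Fin.append_right _ _ i⟩
    | algebraMap c =>
      rw [← IsScalarTower.algebraMap_apply k B2 B]
      exact algebraMap_mem _ _
    | add x y _ _ hx hy =>
      rw [map_add]
      exact add_mem hx hy
    | mul x y _ _ hx hy =>
      rw [map_mul]
      exact mul_mem hx hy

/-- bounds for the generators -/
theorem gens_bound {B : Type} [CommRing B] [Algebra k B] {n : ℕ} {c : Fin n → B}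
    (hc : Algebra.adjoin k (Set.range c) = ⊤) (b : B) : ∃ D : ℕ, ∀ (E : Type) [Field E]
      [Algebra k E] [IsFF k E] (φ : B →ₐ[k] E), hgt k (φ b) ≤ D * ∑ j, hgt k (φ (c j)) := by
  have hb : b ∈ Algebra.adjoin k (Set.range c) := by
    rw [hc]
    exact Algebra.mem_top
  rw [Algebra.adjoin_range_eq_range_aeval] at hb
  obtain ⟨G, rfl⟩ := hb
  refine ⟨G.totalDegree, fun E _ _ _ φ => ?_⟩
  have h1 : φ (MvPolynomial.aeval c G) = MvPolynomial.aeval (fun i => φ (c i)) G := by
    rw [MvPolynomial.comp_aeval_apply]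
  change hgt k (φ (MvPolynomial.aeval c G)) ≤ _
  rw [h1]
  exact hgt_mvpoly (k := k) _ G

/-- joins -/
theorem join_rel {B0 B1 B2 B : Type} [CommRing B0] [CommRing B1] [CommRing B2] [CommRing B]
    [Algebra k B0] [Algebra k B1] [Algebra k B2] [Algebra k B] [Algebra B0 B1] [Algebra B0 B2]
    [Algebra B0 B] [Algebra B1 B] [Algebra B2 B] [IsScalarTower B0 B1 B] [IsScalarTower B0 B2 B]
    (j : Joins k B1 B2 B) (h1 : RelativeBound k B0 B1) (h2 : RelativeBound k B0 B2) :
    RelativeBound k B0 B := by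
  classical
  have i1 := j.tower1
  have i2 := j.tower2
  have i3 := j.ft1
  have i4 := j.ft2
  have i5 := j.dom
  intro m a ha
  obtain ⟨g1, hg1, hA1⟩ := h1 m a ha
  obtain ⟨g2, hg2, hA2⟩ := h2 m a ha
  choose A1 hA1 using hA1
  choose A2 hA2 using hA2
  obtain ⟨n1, c1, hc1⟩ := exists_gens k B1
  obtain ⟨n2, c2, hc2⟩ := exists_gens k B2
  refine ⟨algebraMap B1 B g1 * algebraMap B2 B g2, mul_ne_zero
    (fun h0 => hg1 (j.inj1 (h0.trans (map_zero _).symm)))
    (fun h0 => hg2 (j.inj2 (h0.trans (map_zero _).symm))), fun b => ?_⟩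
  obtain ⟨D, hD⟩ := gens_bound (join_gens j hc1 hc2) b
  refine ⟨D * (∑ i, A1 (c1 i) + ∑ i, A2 (c2 i)), ?_⟩
  intro E _ _ _ S φ hS hφ
  rw [map_mul] at hφ
  obtain ⟨X, hX⟩ : ∃ X : ℤ, X = max (canDeg k E + (S.card : ℤ)) 0 +
    ∑ j, hgt k (φ (algebraMap B0 B (a j))) := ⟨_, rfl⟩
  have e1 : ∀ x : B1, hgt k (φ (algebraMap B1 B x)) ≤ A1 x * X := by
    intro x
    have hφ1 : ∀ x : B0, (φ.comp (IsScalarTower.toAlgHom k B1 B)) (algebraMap B0 B1 x) =
        φ (algebraMap B0 B x) := by
      intro x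
      change φ (algebraMap B1 B (algebraMap B0 B1 x)) = _
      rw [← IsScalarTower.algebraMap_apply B0 B1 B]
    have h3 := hA1 x E S (φ.comp (IsScalarTower.toAlgHom k B1 B)) (by
      intro P hP
      rcases hS P hP with h4 | ⟨j, hj⟩
      · exact Or.inl fun y => h4 _
      · right
        refine ⟨j, ?_⟩
        rw [hφ1]
        exact hj) (left_ne_zero_of_mul hφ)
    have h4 : ∑ j, hgt k ((φ.comp (IsScalarTower.toAlgHom k B1 B)) (algebraMap B0 B1 (a j))) =
        ∑ j, hgt k (φ (algebraMap B0 B (a j))) :=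
      Finset.sum_congr rfl fun j _ => by rw [hφ1]
    rw [h4, ← hX] at h3
    exact h3
  have e2 : ∀ x : B2, hgt k (φ (algebraMap B2 B x)) ≤ A2 x * X := by
    intro x
    have hφ1 : ∀ x : B0, (φ.comp (IsScalarTower.toAlgHom k B2 B)) (algebraMap B0 B2 x) =
        φ (algebraMap B0 B x) := by
      intro x
      change φ (algebraMap B2 B (algebraMap B0 B2 x)) = _
      rw [← IsScalarTower.algebraMap_apply B0 B2 B]
    have h3 := hA2 x E S (φ.comp (IsScalarTower.toAlgHom k B2 B)) (by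
      intro P hP
      rcases hS P hP with h4 | ⟨j, hj⟩
      · exact Or.inl fun y => h4 _
      · right
        refine ⟨j, ?_⟩
        rw [hφ1]
        exact hj) (right_ne_zero_of_mul hφ)
    have h4 : ∑ j, hgt k ((φ.comp (IsScalarTower.toAlgHom k B2 B)) (algebraMap B0 B2 (a j))) =
        ∑ j, hgt k (φ (algebraMap B0 B (a j))) :=
      Finset.sum_congr rfl fun j _ => by rw [hφ1]
    rw [h4, ← hX] at h3
    exact h3
  rw [← hX]
  refine (hD E φ).trans ?_
  rw [Fin.sum_univ_add]
  simp only [Fin.append_left, Fin.append_right]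
  rw [Nat.cast_mul, mul_assoc]
  refine mul_le_mul_of_nonneg_left ?_ (Int.natCast_nonneg _)
  rw [Nat.cast_add, add_mul, Nat.cast_sum, Nat.cast_sum, Finset.sum_mul, Finset.sum_mul]
  exact add_le_add (Finset.sum_le_sum fun i _ => e1 _) (Finset.sum_le_sum fun i _ => e2 _)

/-- joins -/
theorem join_lv {B1 B2 B : Type} [CommRing B1] [CommRing B2] [CommRing B] [Algebra k B1]
    [Algebra k B2] [Algebra k B] [Algebra B1 B] [Algebra B2 B] (j : Joins k B1 B2 B)
    (h1 : LangVojta k B1) (h2 : LangVojta k B2) : LangVojta k B := by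
  classical
  have i1 := j.tower1
  have i2 := j.tower2
  have i3 := j.ft1
  have i4 := j.ft2
  have i5 := j.dom
  obtain ⟨g1, hg1, hA1⟩ := h1
  obtain ⟨g2, hg2, hA2⟩ := h2
  choose A1 hA1 using hA1
  choose A2 hA2 using hA2
  obtain ⟨n1, c1, hc1⟩ := exists_gens k B1
  obtain ⟨n2, c2, hc2⟩ := exists_gens k B2
  refine ⟨algebraMap B1 B g1 * algebraMap B2 B g2, mul_ne_zero
    (fun h0 => hg1 (j.inj1 (h0.trans (map_zero _).symm)))
    (fun h0 => hg2 (j.inj2 (h0.trans (map_zero _).symm))), fun b => ?_⟩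
  obtain ⟨D, hD⟩ := gens_bound (join_gens j hc1 hc2) b
  refine ⟨D * (∑ i, A1 (c1 i) + ∑ i, A2 (c2 i)), ?_⟩
  intro E _ _ _ S φ hS hφ
  rw [map_mul] at hφ
  have e1 : ∀ x : B1, hgt k (φ (algebraMap B1 B x)) ≤ A1 x * max (canDeg k E + (S.card : ℤ)) 0 :=
    fun x => hA1 x E S (φ.comp (IsScalarTower.toAlgHom k B1 B)) (fun b P hP => hS _ P hP)
      (left_ne_zero_of_mul hφ)
  have e2 : ∀ x : B2, hgt k (φ (algebraMap B2 B x)) ≤ A2 x * max (canDeg k E + (S.card : ℤ)) 0 :=
    fun x => hA2 x E S (φ.comp (IsScalarTower.toAlgHom k B2 B)) (fun b P hP => hS _ P hP)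
      (right_ne_zero_of_mul hφ)
  refine (hD E φ).trans ?_
  rw [Fin.sum_univ_add]
  simp only [Fin.append_left, Fin.append_right]
  rw [Nat.cast_mul, mul_assoc]
  refine mul_le_mul_of_nonneg_left ?_ (Int.natCast_nonneg _)
  rw [Nat.cast_add, add_mul, Nat.cast_sum, Nat.cast_sum, Finset.sum_mul, Finset.sum_mul]
  exact add_le_add (Finset.sum_le_sum fun i _ => e1 _) (Finset.sum_le_sum fun i _ => e2 _)

/-- **Affine base.** -/
theorem affine_rel {B0 B : Type} [CommRing B0] [CommRing B] [Algebra k B0] [Algebra k B]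
    [Algebra B0 B] (d : Dominant k B0 B) (hR : RelativeBound k B0 B) (h0 : LangVojta k B0) :
    LangVojta k B := by
  classical
  have i1 := d.ft0
  have i2 := d.dom
  have i3 := d.tower
  obtain ⟨m, a, ha⟩ := exists_gens k B0
  obtain ⟨g1, hg1, hA1⟩ := hR m a ha
  obtain ⟨g0, hg0, hA0⟩ := h0
  choose A0 hA0 using hA0
  refine ⟨g1 * algebraMap B0 B g0, mul_ne_zero hg1 fun h1 => hg0 (d.inj
    (h1.trans (map_zero _).symm)), ?_⟩
  intro b
  obtain ⟨A1, hA1⟩ := hA1 b
  refine ⟨A1 * (1 + ∑ j, A0 (a j)), ?_⟩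
  intro E _ _ _ S φ hreg hφ
  rw [map_mul] at hφ
  let φ0 : B0 →ₐ[k] E := φ.comp (IsScalarTower.toAlgHom k B0 B)
  have h1 : ∀ c : B0, hgt k (φ (algebraMap B0 B c)) ≤ A0 c * max (canDeg k E + S.card) 0 :=
    fun c => hA0 c E S φ0 (fun b P hP => hreg _ P hP) (right_ne_zero_of_mul hφ)
  refine (hA1 E S φ (fun P hP => Or.inl fun b => hreg b P hP) (left_ne_zero_of_mul hφ)).trans ?_
  push_cast
  rw [mul_assoc]
  refine mul_le_mul_of_nonneg_left ?_ (Int.natCast_nonneg _)
  have h2 := Finset.sum_le_sum fun j (_ : j ∈ Finset.univ) => h1 (a j)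
  rw [← Finset.sum_mul] at h2
  linarith

/-- **General base.** -/
theorem base_rel {R B0 B : Type} [CommRing R] [CommRing B0] [CommRing B] [Algebra k R]
    [Algebra k B0] [Algebra k B] [Algebra R B] [Algebra B0 B] [IsScalarTower k R B]
    (d : Dominant k B0 B) (hR : RelativeBound k B0 B) (hc : Chart k R B0 B)
    (h0 : BoundedBase k R B0 B) : LangVojta k R := by
  classical
  have i1 := d.ft0
  have i2 := d.dom
  have i3 := d.tower
  obtain ⟨m, a, ha⟩ := exists_gens k B0
  obtain ⟨g1, hg1, hA1⟩ := hR m a ha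
  obtain ⟨g0, hg0, hA0⟩ := h0
  choose A0 hA0 using hA0
  obtain ⟨e, hd0, hloc⟩ := hc.loc
  have hdB : algebraMap R B e ≠ 0 := fun h1 => hd0 (hc.inj (h1.trans (map_zero _).symm))
  obtain ⟨n, r, hr⟩ := hloc (g1 * g0)
  have hgB : g1 * g0 ≠ 0 := mul_ne_zero hg1 hg0
  refine ⟨e * r, ?_, ?_⟩
  · intro h1
    have h2 := congrArg (algebraMap R B) h1
    rw [map_mul, map_zero, ← hr] at h2
    exact mul_ne_zero hdB (mul_ne_zero (pow_ne_zero n hdB) hgB) h2
  intro b
  obtain ⟨A1, hA1⟩ := hA1 (algebraMap R B b)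
  refine ⟨A1 * (1 + ∑ j, A0 (a j)), ?_⟩
  intro E _ _ _ S φ hreg hφ
  rw [map_mul] at hφ
  obtain ⟨φ', hφ'⟩ := exists_extend hc.inj hloc φ (left_ne_zero_of_mul hφ)
  have hφ2 : φ' (g1 * g0) ≠ 0 := by
    intro h1
    have h2 := congrArg φ' hr
    rw [map_mul, h1, mul_zero, hφ'] at h2
    exact right_ne_zero_of_mul hφ h2.symm
  rw [map_mul] at hφ2
  have h1 : ∀ c : B0, hgt k (φ' (algebraMap B0 B c)) ≤ A0 c * max (canDeg k E + S.card) 0 :=
    fun c => hA0 c E S φ' (fun r P hP => by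
      rw [hφ']
      exact hreg r P hP) (right_ne_zero_of_mul hφ2)
  have h2 : ∀ P ∉ S, (∀ b, 0 ≤ P.ord (φ' b)) ∨ ∃ j, P.ord (φ' (algebraMap B0 B (a j))) < 0 := by
    intro P hP
    by_cases hj : ∃ j, P.ord (φ' (algebraMap B0 B (a j))) < 0
    · exact Or.inr hj
    left
    push Not at hj
    have e1 : ∀ c : B0, Ge P 0 (φ' (algebraMap B0 B c)) := by
      intro c
      have hmem : c ∈ Algebra.adjoin k (Set.range a) := by
        rw [ha]
        exact Algebra.mem_top
      induction hmem using Algebra.adjoin_induction with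
      | mem x hx =>
        obtain ⟨j, rfl⟩ := hx
        exact Or.inr (hj j)
      | algebraMap c =>
        rw [← IsScalarTower.algebraMap_apply k B0 B, AlgHom.commutes]
        exact Ge.const c
      | add x y _ _ hx hy =>
        rw [map_add, map_add]
        exact hx.add hy
      | mul x y _ _ hx hy =>
        rw [map_mul, map_mul]
        have := hx.mul hy
        rwa [add_zero] at this
    have e2 : ∀ b : B, Ge P 0 (φ' b) := by
      intro b
      have hmem : b ∈ Algebra.adjoin k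
          (Set.range (algebraMap R B) ∪ Set.range (algebraMap B0 B)) := by
        rw [hc.gen]
        exact Algebra.mem_top
      induction hmem using Algebra.adjoin_induction with
      | mem x hx =>
        rcases hx with ⟨r, rfl⟩ | ⟨c, rfl⟩
        · rw [hφ']
          exact Or.inr (hreg r P hP)
        · exact e1 c
      | algebraMap c =>
        rw [AlgHom.commutes]
        exact Ge.const c
      | add x y _ _ hx hy =>
        rw [map_add]
        exact hx.add hy
      | mul x y _ _ hx hy =>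
        rw [map_mul]
        have := hx.mul hy
        rwa [add_zero] at this
    intro b
    rcases e2 b with h3 | h3
    · rw [h3, P.ord_zero]
    · exact h3
  have h3 := hA1 E S φ' h2 (left_ne_zero_of_mul hφ2)
  rw [hφ'] at h3
  refine h3.trans ?_
  push_cast
  rw [mul_assoc]
  refine mul_le_mul_of_nonneg_left ?_ (Int.natCast_nonneg _)
  have h4 := Finset.sum_le_sum fun j (_ : j ∈ Finset.univ) => h1 (a j)
  rw [← Finset.sum_mul] at h4
  linarith

/-- projective varieties as bases -/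
theorem bounded_of_demailly {R B0 B : Type} [CommRing R] [CommRing B0] [CommRing B]
    [Algebra k B0] [Algebra k B] [Algebra R B] [Algebra B0 B] (d : Dominant k B0 B)
    (h0 : Demailly k B0) : BoundedBase k R B0 B := by
  have i3 := d.tower
  obtain ⟨g0, hg0, hA0⟩ := h0
  refine ⟨algebraMap B0 B g0, fun h1 => hg0 (d.inj (h1.trans (map_zero _).symm)), fun b => ?_⟩
  obtain ⟨A, hA⟩ := hA0 b
  refine ⟨A, fun E _ _ _ S φ hS hφ => ?_⟩
  have h1 := hA E (φ.comp (IsScalarTower.toAlgHom k B0 B)) hφ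
  refine h1.trans (mul_le_mul_of_nonneg_left ?_ (Int.natCast_nonneg _))
  refine max_le_max ?_ le_rfl
  have : (0 : ℤ) ≤ S.card := Int.natCast_nonneg _
  linarith

/-- the absolute case -/
theorem rel_of_lv {B : Type} [CommRing B] [Algebra k B] (h : LangVojta k B) :
    RelativeBound k k B := by
  intro m a _
  obtain ⟨g, hg, hA⟩ := h
  refine ⟨g, hg, fun b => ?_⟩
  obtain ⟨A, hA⟩ := hA b
  refine ⟨A, ?_⟩
  intro E _ _ _ S φ hS hφ
  have h1 := hA E S φ (by
    intro b P hP
    rcases hS P hP with h2 | ⟨j, hj⟩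
    · exact h2 b
    · exfalso
      rw [AlgHom.commutes] at hj
      by_cases h0 : a j = 0
      · rw [h0, map_zero, P.ord_zero] at hj
        omega
      · rw [P.ord_const h0] at hj
        omega) hφ
  refine h1.trans (mul_le_mul_of_nonneg_left ?_ (Int.natCast_nonneg _))
  have h3 : 0 ≤ ∑ j, hgt k (φ (algebraMap k B (a j))) :=
    Finset.sum_nonneg fun _ _ => hgt_nonneg _
  linarith

theorem corr_dom {B0 B B0' B' : Type} [CommRing B0] [CommRing B] [CommRing B0']
    [CommRing B'] [Algebra k B0] [Algebra k B] [Algebra k B0'] [Algebra k B'] [Algebra B0 B]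
    [Algebra B0' B'] (h : Correspondence k B0 B B0' B') : Dominant k B0 B := by
  obtain ⟨h1, h2, h3, h4, h5, M, i1, i2, i3, i4, i5, i6, i7, i8, Ω, h, h6, h7, h8, h9⟩ := h
  exact ⟨h1, h2, h.inj.isDomain (algebraMap B M), h3, h.inj0⟩

theorem corr_abs {B B' : Type} [CommRing B] [CommRing B'] [Algebra k B] [Algebra k B']
    (h : Correspondence k k B k B') (h0 : LangVojta k B') : LangVojta k B :=
  affine_rel (corr_dom h) (correspondence h (rel_of_lv h0)) point_step

/-- **Functions `β` of any shape: affine base.** -/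
theorem affine_deg {B0 B : Type} [CommRing B0] [CommRing B] [Algebra k B0] [Algebra k B]
    [Algebra B0 B] (d : Dominant k B0 B) (hR : RelativeBound k B0 B) (h0 : DegreeBound k B0) :
    DegreeBound k B := by
  classical
  have i1 := d.ft0
  have i2 := d.dom
  have i3 := d.tower
  obtain ⟨m, a, ha⟩ := exists_gens k B0
  obtain ⟨g1, hg1, hA1⟩ := hR m a ha
  obtain ⟨g0, hg0, hA0⟩ := h0
  choose β hβ using hA0
  refine ⟨g1 * algebraMap B0 B g0, mul_ne_zero hg1 fun h1 => hg0 (d.inj
    (h1.trans (map_zero _).symm)), ?_⟩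
  intro b
  obtain ⟨A1, hA1⟩ := hA1 b
  refine ⟨fun n => A1 * (n.toNat + ∑ j, β (a j) n), ?_⟩
  intro E _ _ _ S φ hreg hφ
  rw [map_mul] at hφ
  let φ0 : B0 →ₐ[k] E := φ.comp (IsScalarTower.toAlgHom k B0 B)
  have h1 : ∀ c : B0, hgt k (φ (algebraMap B0 B c)) ≤ β c (max (canDeg k E + S.card) 0) :=
    fun c => hβ c E S φ0 (fun b P hP => hreg _ P hP) (right_ne_zero_of_mul hφ)
  refine (hA1 E S φ (fun P hP => Or.inl fun b => hreg b P hP) (left_ne_zero_of_mul hφ)).trans ?_
  have h2 := Finset.sum_le_sum fun j (_ : j ∈ Finset.univ) => h1 (a j)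
  have h3 : (0 : ℤ) ≤ max (canDeg k E + S.card) 0 := le_max_right _ _
  rw [Nat.cast_mul]
  refine mul_le_mul_of_nonneg_left ?_ (Int.natCast_nonneg _)
  rw [Nat.cast_add, Int.toNat_of_nonneg h3]
  push_cast
  linarith

theorem corr_gen' {B0 B B0' B' : Type} [CommRing B0] [CommRing B] [CommRing B0']
    [CommRing B'] [Algebra k B0] [Algebra k B] [Algebra k B0'] [Algebra k B'] [Algebra B0 B]
    [Algebra B0' B'] (h : Correspondence k B0 B B0' B')
    {m : ℕ} (a : Fin m → B0) (ha : Algebra.adjoin k (Set.range a) = ⊤)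
    {N' m' : ℕ} (x' : Fin N' → B') (hx' : Algebra.adjoin k (Set.range x') = ⊤)
    (a' : Fin m' → B0') (g' : B') (hg' : g' ≠ 0) :
    ∃ (g : B) (N1 : ℕ), g ≠ 0 ∧ ∀ b : B, ∃ D : ℕ, ∀ (E : Type) [Field E] [Algebra k E] [IsFF k E]
      (S : Finset (Place k E)) (φ : B →ₐ[k] E), (∀ b, ∀ P ∉ S, 0 ≤ P.ord (φ b)) → φ g ≠ 0 →
      ∃ (K : Type) (_ : Field K) (_ : Algebra k K) (_ : IsFF k K) (S' : Finset (Place k K))
        (φ' : B' →ₐ[k] K), (∀ b, ∀ P ∉ S', 0 ≤ P.ord (φ' b)) ∧ φ' g' ≠ 0 ∧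
        max (canDeg k K + S'.card) 0 ≤ N1 * (max (canDeg k E + S.card) 0 +
          ∑ j, hgt k (φ (algebraMap B0 B (a j)))) ∧
        ∑ j, hgt k (φ' (algebraMap B0' B' (a' j))) ≤
          N1 * ∑ j, hgt k (φ (algebraMap B0 B (a j))) ∧
        hgt k (φ b) ≤ D * (∑ i, hgt k (φ' (x' i)) +
          N1 * ∑ j, hgt k (φ (algebraMap B0 B (a j)))) := by
  obtain ⟨h1, h2, h3, h4, h5, M, i1, i2, i3, i4, i5, i6, i7, i8, Ω, h, h6, h7, h8, h9⟩ := h
  exact corr_gen h h6 h7 h8 h9 a ha x' hx' a' g' hg'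

theorem corr_ft {B0 B B0' B' : Type} [CommRing B0] [CommRing B] [CommRing B0']
    [CommRing B'] [Algebra k B0] [Algebra k B] [Algebra k B0'] [Algebra k B'] [Algebra B0 B]
    [Algebra B0' B'] (h : Correspondence k B0 B B0' B') : Algebra.FiniteType k B' :=
  h.2.2.2.2.1

/-- **Functions `β` of any shape: correspondences.** -/
theorem corr_deg {B B' : Type} [CommRing B] [CommRing B'] [Algebra k B] [Algebra k B']
    (h : Correspondence k k B k B') (h0 : DegreeBound k B') : DegreeBound k B := by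
  classical
  have i1 := corr_ft h
  obtain ⟨g', hg', hβ⟩ := h0
  choose β hβ using hβ
  obtain ⟨N', x', hx'⟩ := exists_gens k B'
  obtain ⟨m, a, ha⟩ := exists_gens k k
  obtain ⟨g, N1, hg, hD⟩ := corr_gen' h a ha x' hx' a g' hg'
  refine ⟨g, hg, fun b => ?_⟩
  obtain ⟨D, hD⟩ := hD b
  refine ⟨fun n => D * ∑ i, ∑ j ∈ Finset.Icc 0 (N1 * n), β (x' i) j, ?_⟩
  intro E _ _ _ S φ hφ hφg
  obtain ⟨K, _, _, _, S', φ', e1, e2, e3, e4, e5⟩ := hD E S φ hφ hφg
  have hH : ∑ j, hgt k (φ (algebraMap k B (a j))) = 0 := by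
    refine Finset.sum_eq_zero fun j _ => ?_
    rw [AlgHom.commutes]
    exact hgt_algebraic (isAlgebraic_algebraMap _)
  rw [hH, add_zero] at e3
  rw [hH, mul_zero, add_zero] at e5
  refine e5.trans ?_
  rw [Nat.cast_mul]
  refine mul_le_mul_of_nonneg_left ?_ (Int.natCast_nonneg _)
  rw [Nat.cast_sum]
  refine Finset.sum_le_sum fun i _ => ?_
  have e6 := hβ (x' i) K S' φ' e1 e2
  refine e6.trans ?_
  have e7 : max (canDeg k K + (S'.card : ℤ)) 0 ∈
      Finset.Icc 0 (N1 * max (canDeg k E + (S.card : ℤ)) 0) := by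
    rw [Finset.mem_Icc]
    exact ⟨le_max_right _ _, e3⟩
  exact_mod_cast Finset.single_le_sum (f := fun j => β (x' i) j) (fun _ _ => Nat.zero_le _) e7

end steps

section classes

variable {k : Type} [Field k] [IsAlgClosed k] [CharZero k]

theorem hyp {B0 B : Type} [i1 : CommRing B0] [i2 : CommRing B] [i3 : Algebra k B0]
    [i4 : Algebra k B] [i5 : Algebra B0 B] (h : Hyperbolic k B0 B) :
    Dominant k B0 B ∧ RelativeBound k B0 B := by
  induction h with
  | curve B0 B h =>
    refine ⟨?_, relativeBound h⟩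
    obtain ⟨h1, h2, h3, M, i1, i2, i3, i4, i5, i6, Ω, h⟩ := h
    exact ⟨h1, h2, h.inj.isDomain (algebraMap B M), h3, h.inj0⟩
  | monomial B0 B h =>
    refine ⟨?_, mfibration h⟩
    obtain ⟨h1, h2, h3, M, i1, i2, i3, i4, i5, i6, Ω, h, N, U, u, hu⟩ := h
    exact ⟨h1, h2, h.inj.isDomain (algebraMap B M), h3, h.inj0⟩
  | finite B0 B hd halg => exact ⟨hd, finite_rel hd halg⟩
  | comp B0 B1 B h1 h2 ih1 ih2 =>
    refine ⟨?_, comp_rel ih1.1 ih2.1 ih1.2 ih2.2⟩
    have i1 := ih1.1.tower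
    have i2 := ih2.1.tower
    refine ⟨ih1.1.ft0, ih2.1.ft, ih2.1.dom, ?_, ?_⟩
    · refine IsScalarTower.of_algebraMap_eq fun c => ?_
      rw [IsScalarTower.algebraMap_apply k B1 B, IsScalarTower.algebraMap_apply k B0 B1,
        ← IsScalarTower.algebraMap_apply B0 B1 B]
    · rw [IsScalarTower.algebraMap_eq B0 B1 B]
      exact ih2.1.inj.comp ih1.1.inj
  | join B0 B1 B2 B h1 h2 j ih1 ih2 =>
    refine ⟨?_, join_rel j ih1.2 ih2.2⟩
    have i1 := ih1.1.tower
    have i2 := j.tower1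
    have i3 := j.ft1
    have i4 := j.ft2
    obtain ⟨n1, c1, hc1⟩ := exists_gens k B1
    obtain ⟨n2, c2, hc2⟩ := exists_gens k B2
    refine ⟨ih1.1.ft0, ?_, j.dom, ?_, ?_⟩
    · exact ⟨Subalgebra.fg_def.2 ⟨_, Set.finite_range _, join_gens j hc1 hc2⟩⟩
    · refine IsScalarTower.of_algebraMap_eq fun c => ?_
      rw [IsScalarTower.algebraMap_apply k B1 B, IsScalarTower.algebraMap_apply k B0 B1,
        ← IsScalarTower.algebraMap_apply B0 B1 B]
    · rw [IsScalarTower.algebraMap_eq B0 B1 B]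
      exact j.inj1.comp ih1.1.inj
  | corr B0 B B0' B' h1 h2 ih => exact ⟨corr_dom h2, correspondence h2 ih.2⟩

/-- **The conjecture of Lang and Vojta for the class of varieties.** -/
theorem variety {B : Type} [i1 : CommRing B] [i2 : Algebra k B] (h : Variety k B) :
    LangVojta k B := by
  induction h with
  | point => exact point_step
  | fibre B0 B h0 h ih => exact affine_rel (hyp h).1 (hyp h).2 ih
  | join B1 B2 B h1 h2 j ih1 ih2 => exact join_lv j ih1 ih2
  | orbifold R B0 B h0 h hc =>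
    have i1 := (hyp h).1.dom
    have i2 := (hyp h).1.tower
    exact base_rel (hyp h).1 (hyp h).2 hc (orbifold_base h0)
  | corr B B' h0 h ih => exact corr_abs h ih

end classes

end Pool.Agent.K4H62.VA
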