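import Pool.Agent.K4H62.HF.TDefs

/-!
Fibrations whose fibres are, up to finite etale coverings and generically finite morphisms,
subvarieties of tori and affine spaces which are given by equations with few monomials; the
definitions.
-/

set_option autoImplicit false
set_option linter.overlappingInstances false

open FF Pool.Agent.W603.LV Pool.Agent.K4H62.HF

namespace Pool.Agent.K4H62.VA

section fibre

variable {k M : Type} [Field k] [Field M] [Algebra k M]

/-- The function `w` in `M` is regular on the affine variety `V` over `Ω` which is the normalization
in `M` of the affine variety `U` over `Ω` whose ring of functions is generated by `Ω` and `B`. -/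
def IntOver (B : Type) [CommRing B] [Algebra B M] (Ω : IntermediateField k M) (w : M) : Prop :=
  IsIntegral (Algebra.adjoin Ω (Set.range (algebraMap B M))) w

/-- `f` is an equation between the functions `u i`, with coefficients in `Ω` and with monomials whose
exponents `e` are in the finite set `J`; the exponents of the functions `u i` with `i` not in `U` are
multiples of a number `n > 0` with `n ≥ (#J - 1) ^ 2`. -/
structure Equation (Ω : IntermediateField k M) {N : ℕ} (U : Set (Fin N)) (u : Fin N → M)
    (J : Finset (Fin N → ℕ)) (f : (Fin N → ℕ) → M) (n : ℕ) : Prop where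
  coeff : ∀ e, f e ∈ Ω
  pos : 0 < n
  large : (J.card - 1) ^ 2 ≤ n
  dvd : ∀ e ∈ J, ∀ i, i ∉ U → n ∣ e i
  sum : ∑ e ∈ J, f e * ∏ i, u i ^ e i = 0

/-- The `u i` are rational functions on the affine variety `V`, and those with `i` in `U` are units.
The rational map from `V` to the torus given by the `u i` is finite over the generic point of its
image, and for each one-parameter subgroup `t ↦ (t ^ b i)`, `b ≠ 0`, of the torus there is an equation
as above for the image of `V` which is not invariant, up to factors, under the subgroup: it has a
part, homogeneous of some weight `c` for this subgroup, which does not vanish on the image of `V`. If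
`U` is the set of all `i` (a morphism to a torus) then the conditions on the exponents are empty, and
this means that the stabilizer in the torus of the image of `V` is finite, or (by a theorem of
Kawamata) that this image is of log general type. -/
structure MonomialMap (B : Type) [CommRing B] [Algebra B M] (Ω : IntermediateField k M) {N : ℕ}
    (U : Set (Fin N)) (u : Fin N → M) : Prop where
  ne : ∀ i, u i ≠ 0
  unit : ∀ i ∈ U, IntOver B Ω (u i) ∧ IntOver B Ω (u i)⁻¹
  fin : ∀ w : M, IsAlgebraic (IntermediateField.adjoin Ω (Set.range u)) w
  stab : ∀ b : Fin N → ℤ, b ≠ 0 → ∃ J f n, Equation Ω U u J f n ∧ ∃ c : ℤ,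
    ∑ e ∈ J with ∑ i, b i * (e i : ℤ) = c, f e * ∏ i, u i ^ e i ≠ 0

/-- Let `X = Spec B → Y = Spec B0` be a dominant morphism. `Ω` is algebraic over the field of
functions of `Y`, for example an algebraic closure, and `M` is the field of functions of a finite
etale covering `V` of the normalization of the component `U`, whose ring of functions is generated by
`Ω` and `B`, of the fibre of `X` over `Spec Ω → Y`. -/
structure Covering (B0 B : Type) [CommRing B0] [CommRing B] [Algebra B0 B] [Algebra B0 M]
    [Algebra B M] (Ω : IntermediateField k M) : Prop where
  inj0 : Function.Injective (algebraMap B0 B)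
  inj : Function.Injective (algebraMap B M)
  base : ∀ b : B0, algebraMap B0 M b ∈ Ω
  alg : ∀ c ∈ Ω, IsAlgebraic B0 c
  etale : EtaleOver (fieldOf B Ω) M (IntOver B Ω)

end fibre

/-- The morphism `Spec B → Spec B0` of affine varieties is dominant, and a component of the geometric
generic fibre has, up to normalization, a finite etale covering `V` with a map as above. -/
def MFibration (k B0 B : Type) [Field k] [CommRing B0] [CommRing B] [Algebra k B0] [Algebra k B]
    [Algebra B0 B] : Prop :=
  Algebra.FiniteType k B0 ∧ Algebra.FiniteType k B ∧ IsScalarTower k B0 B ∧
    ∃ (M : Type) (_ : Field M) (_ : Algebra k M) (_ : Algebra B0 M) (_ : Algebra B M)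
      (_ : IsScalarTower k B M) (_ : IsScalarTower B0 B M) (Ω : IntermediateField k M),
      Covering B0 B Ω ∧ ∃ (N : ℕ) (U : Set (Fin N)) (u : Fin N → M), MonomialMap B Ω U u

/-- Let `X → Y` and `X' → Y'` be the morphisms `Spec B → Spec B0` and `Spec B' → Spec B0'`. A
component of the geometric generic fibre of `X → Y` has, up to normalization, a finite etale covering
`V` with a dominant morphism to `X'` such that the map to `Y'` is constant on `V`, and such that the
morphism from `V` to the fibre of `X'` is finite over the generic point of its image. (`V` is a
variety over `Ω`, a field extension of `k`, and so it can be dominant over `X'`.) -/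
def Correspondence (k B0 B B0' B' : Type) [Field k] [CommRing B0] [CommRing B] [CommRing B0']
    [CommRing B'] [Algebra k B0] [Algebra k B] [Algebra k B0'] [Algebra k B'] [Algebra B0 B]
    [Algebra B0' B'] : Prop :=
  Algebra.FiniteType k B0 ∧ Algebra.FiniteType k B ∧ IsScalarTower k B0 B ∧
    Algebra.FiniteType k B0' ∧ Algebra.FiniteType k B' ∧
    ∃ (M : Type) (_ : Field M) (_ : Algebra k M) (_ : Algebra B0 M) (_ : Algebra B M)
      (_ : Algebra B' M) (_ : IsScalarTower k B M) (_ : IsScalarTower B0 B M)
      (_ : IsScalarTower k B' M) (Ω : IntermediateField k M), Covering B0 B Ω ∧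
      Function.Injective (algebraMap B' M) ∧
      (∀ b : B0', algebraMap B' M (algebraMap B0' B' b) ∈ Ω) ∧
      (∀ b : B', IntOver B Ω (algebraMap B' M b)) ∧
      ∀ w : M, IsAlgebraic (IntermediateField.adjoin Ω (Set.range (algebraMap B' M))) w

end Pool.Agent.K4H62.VA
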