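import Pool.Agent.K4H62.VA.Reg
import Pool.Agent.K4H62.HF.Main3

/-!
The lifting of curves to a covering of the generic fibre.
-/

set_option autoImplicit false
set_option linter.overlappingInstances false
set_option linter.unusedSectionVars false

open FF Pool.Agent.W603.LV Pool.Agent.W603.PV Polynomial Pool.Agent.K4H62.HF
open Pool.Agent.TH466.QG (Sp)

namespace Pool.Agent.K4H62.VA

/-- **Lifting.** -/
theorem lift {k B0 B M : Type} [Field k] [IsAlgClosed k] [CharZero k] [CommRing B0]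
    [CommRing B] [Field M] [Algebra k B0] [Algebra k B] [Algebra.FiniteType k B] [Algebra k M]
    [Algebra B0 B] [Algebra B0 M] [Algebra B M] [IsScalarTower k B0 B] [IsScalarTower k B M]
    [IsScalarTower B0 B M] {Ω : IntermediateField k M}
    (hinj0 : Function.Injective (algebraMap B0 B)) (hinj : Function.Injective (algebraMap B M))
    (hbase : ∀ b : B0, algebraMap B0 M b ∈ Ω) (halg : ∀ c ∈ Ω, IsAlgebraic B0 c)
    (het : EtaleOver (fieldOf B Ω) M (IntOver B Ω)) {m : ℕ}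
    (a : Fin m → B0) (ha : Algebra.adjoin k (Set.range a) = ⊤) (Ξ W Θc : Finset M)
    (hWreg : ∀ w ∈ W, IntOver B Ω w) (hΘcΩ : ∀ ϑ ∈ Θc, ϑ ∈ Ω ∧ ϑ ≠ 0) :
    ∃ (Θ : Finset M) (N0 C : ℕ) (g : B), Θc ⊆ Θ ∧ g ≠ 0 ∧
      ∀ (E : Type) [Field E] [Algebra k E] [IsFF k E] (S : Finset (Place k E)) (φ : B →ₐ[k] E),
        (∀ b, ∀ P ∉ S, 0 ≤ P.ord (φ b)) → φ g ≠ 0 →
        ∃ (K : Type) (_ : Field K) (_ : Algebra k K) (_ : Algebra E K)
          (_ : IsScalarTower k E K) (_ : FiniteDimensional E K) (_ : IsFF k K),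
          Module.finrank E K ≤ N0 ∧ ∃ (T : Sp k M K) (t : M → K) (S' : Finset (Place k K)),
            (∀ b, T.T (algebraMap B M b) (algebraMap E K (φ b))) ∧
            (∀ x ∈ Ξ, ∃ e, T.T x e) ∧
            (∀ ϑ ∈ Θ, T.T ϑ (t ϑ) ∧ t ϑ ≠ 0 ∧
              hgt k (t ϑ) ≤ C * ∑ j, hgt k (algebraMap E K (φ (algebraMap B0 B (a j))))) ∧
            (∀ P ∉ S', (∀ ϑ ∈ Θ, P.ord (t ϑ) = 0) ∧ ∀ w ∈ W, ∀ w', T.T w w' → Ge P 0 w') ∧
            canDeg k K + S'.card ≤ Module.finrank E K * (canDeg k E + S.card) +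
              Module.finrank E K * (2 * ∑ ϑ ∈ Θ, hgt k (t ϑ)) := by
  classical
  have hchΩ : CharZero Ω := charZero_of_injective_algebraMap (algebraMap k Ω).injective
  obtain ⟨N, π, hπ⟩ := Algebra.FiniteType.iff_quotient_mvPolynomial''.1
    (inferInstance : Algebra.FiniteType k B)
  obtain ⟨ξ, hξd⟩ : ∃ ξ : Fin N → M, ∀ i, ξ i = algebraMap B M (π (MvPolynomial.X i)) :=
    ⟨_, fun _ => rfl⟩
  have hξ : ∀ G, MvPolynomial.aeval ξ G = algebraMap B M (π G) := by
    intro G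
    have e : MvPolynomial.aeval ξ = (IsScalarTower.toAlgHom k B M).comp π := by
      apply MvPolynomial.algHom_ext
      intro i
      rw [MvPolynomial.aeval_X, hξd]
      rfl
    rw [e]
    rfl
  obtain ⟨α, hαd⟩ : ∃ α : Fin m → M, ∀ j, α j = algebraMap B0 M (a j) := ⟨_, fun _ => rfl⟩
  obtain ⟨F, hF⟩ : ∃ F : IntermediateField k M, F = IntermediateField.adjoin k (Set.range α) :=
    ⟨_, rfl⟩
  have hst0 : IsScalarTower k B0 M := by
    refine IsScalarTower.of_algebraMap_eq fun c => ?_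
    rw [IsScalarTower.algebraMap_apply k B M, IsScalarTower.algebraMap_apply k B0 B,
      ← IsScalarTower.algebraMap_apply B0 B M]
  have hB0F : ∀ b : B0, algebraMap B0 M b ∈ F := by
    intro b
    have hb : b ∈ Algebra.adjoin k (Set.range a) := by
      rw [ha]
      exact Algebra.mem_top
    rw [Algebra.adjoin_range_eq_range_aeval] at hb
    obtain ⟨G, rfl⟩ := hb
    have e : MvPolynomial.aeval α = (IsScalarTower.toAlgHom k B0 M).comp (MvPolynomial.aeval a) := by
      apply MvPolynomial.algHom_ext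
      intro i
      rw [MvPolynomial.aeval_X, hαd, AlgHom.comp_apply, MvPolynomial.aeval_X]
      rfl
    have e2 : algebraMap B0 M (MvPolynomial.aeval a G) = MvPolynomial.aeval α G := by
      rw [e]
      rfl
    change algebraMap B0 M (MvPolynomial.aeval a G) ∈ F
    rw [e2, hF]
    exact mem_adjoin_aeval α G
  have hFΩ : F ≤ Ω := by
    rw [hF, IntermediateField.adjoin_le_iff]
    rintro _ ⟨j, rfl⟩
    rw [hαd]
    exact hbase _
  have hBL : ∀ b : B, algebraMap B M b ∈ IntermediateField.adjoin k (Set.range ξ) := by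
    intro b
    obtain ⟨G, rfl⟩ := hπ b
    rw [← hξ]
    exact mem_adjoin_aeval ξ G
  have hFL : F ≤ IntermediateField.adjoin k (Set.range ξ) := by
    rw [hF, IntermediateField.adjoin_le_iff]
    rintro _ ⟨j, rfl⟩
    rw [hαd, IsScalarTower.algebraMap_apply B0 B M]
    exact hBL _
  have hinj1 : Function.Injective (algebraMap B0 M) := by
    rw [IsScalarTower.algebraMap_eq B0 B M]
    exact hinj.comp hinj0
  have hΩF : ∀ c ∈ Ω, IsAlgebraic F c := fun c hc => alg_of_ring hinj1 F hB0F (halg c hc)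
  -- the covering
  obtain ⟨p, θ, c, f, hf, hsum⟩ := het
  obtain ⟨i0⟩ : Nonempty (Fin p) := by
    by_contra hcon
    rw [not_nonempty_iff] at hcon
    rw [Finset.univ_eq_empty, Finset.sum_empty] at hsum
    exact zero_ne_one hsum
  choose r hr using fun i => exists_r (hf i).1 (hf i).2.2.2.1 (hf i).2.2.2.2 (θ i0)
  have hall : ∀ x, x ∈ IntermediateField.adjoin Ω (insert (θ i0) (Set.range ξ)) :=
    mem_all Ω hBL (hf i0).2.2.2.2
  have hθ0 : IsAlgebraic (IntermediateField.adjoin k (Set.range ξ)) (θ i0) := by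
    refine alg_trans' _ Ω (Set.range (algebraMap B M)) (fun c hc => alg_mono hFL (hΩF c hc)) ?_ ?_
    · rintro _ ⟨b, rfl⟩
      exact isAlgebraic_algebraMap (R := IntermediateField.adjoin k (Set.range ξ)) (A := M)
        ⟨_, hBL b⟩
    · have h1 : IsIntegral (fieldOf B Ω) (θ i0) := ⟨f i0, (hf i0).1, (hf i0).2.2.2.1⟩
      exact h1.isAlgebraic
  -- the regular functions
  obtain ⟨W', hW'⟩ : ∃ W' : Finset M, W' = W ∪ (Finset.univ.image θ ∪
    (Finset.univ.image c ∪ Finset.univ.biUnion fun i =>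
      (Finset.range ((f i).natDegree + 1)).image fun j => (((f i).coeff j : fieldOf B Ω) : M))) :=
    ⟨_, rfl⟩
  have hWW : W ⊆ W' := by
    rw [hW']
    exact Finset.subset_union_left
  have hWθ : ∀ i, θ i ∈ W' := fun i => by
    rw [hW']
    exact Finset.mem_union_right _ (Finset.mem_union_left _
      (Finset.mem_image_of_mem _ (Finset.mem_univ i)))
  have hWc : ∀ i, c i ∈ W' := fun i => by
    rw [hW']
    exact Finset.mem_union_right _ (Finset.mem_union_right _ (Finset.mem_union_left _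
      (Finset.mem_image_of_mem _ (Finset.mem_univ i))))
  have hWf : ∀ i, ∀ j ∈ Finset.range ((f i).natDegree + 1),
      (((f i).coeff j : fieldOf B Ω) : M) ∈ W' := fun i j hj => by
    rw [hW']
    exact Finset.mem_union_right _ (Finset.mem_union_right _ (Finset.mem_union_right _
      (Finset.mem_biUnion.2 ⟨i, Finset.mem_univ i, Finset.mem_image_of_mem _ hj⟩)))
  have hWint : ∀ w ∈ W', IntOver B Ω w := by
    intro w hw
    rw [hW'] at hw
    rcases Finset.mem_union.1 hw with hw | hw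
    · exact hWreg w hw
    rcases Finset.mem_union.1 hw with hw | hw
    · obtain ⟨i, -, rfl⟩ := Finset.mem_image.1 hw
      exact intOver_of_monic (hf i).1 (hf i).2.1 (hf i).2.2.2.1
    rcases Finset.mem_union.1 hw with hw | hw
    · obtain ⟨i, -, rfl⟩ := Finset.mem_image.1 hw
      exact (hf i).2.2.1
    · obtain ⟨i, -, hw⟩ := Finset.mem_biUnion.1 hw
      obtain ⟨j, -, rfl⟩ := Finset.mem_image.1 hw
      exact (hf i).2.1 j
  obtain ⟨Θ1, hΘ1, hb1⟩ := int_reg W' hWint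
  obtain ⟨Θ2, hΘ2⟩ : ∃ Θ2 : Finset M, Θ2 = Θc ∪ Θ1 := ⟨_, rfl⟩
  have hΘ2Ω : ∀ ϑ ∈ Θ2, ϑ ∈ Ω ∧ ϑ ≠ 0 := by
    intro ϑ hϑ
    rw [hΘ2] at hϑ
    rcases Finset.mem_union.1 hϑ with hϑ | hϑ
    · exact hΘcΩ ϑ hϑ
    · exact hΘ1 ϑ hϑ
  -- spreading out
  obtain ⟨Ξ1, hΞ1⟩ : ∃ Ξ1 : Finset M, Ξ1 = Finset.univ.biUnion fun i =>
    ((Finset.range ((f i).natDegree + 1)).image fun j => (((f i).coeff j : fieldOf B Ω) : M)) ∪
    ((Finset.range ((r i).natDegree + 1)).image fun j => (((r i).coeff j : fieldOf B Ω) : M)) :=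
    ⟨_, rfl⟩
  obtain ⟨Ξ2, hΞ2⟩ : ∃ Ξ2 : Finset M, Ξ2 = Ξ ∪ (Finset.univ.image θ ∪ Finset.univ.image c) :=
    ⟨_, rfl⟩
  have hΞ2θ : ∀ i, θ i ∈ Ξ2 := fun i => by
    rw [hΞ2]
    exact Finset.mem_union_right _ (Finset.mem_union_left _
      (Finset.mem_image_of_mem _ (Finset.mem_univ i)))
  have hΞ2c : ∀ i, c i ∈ Ξ2 := fun i => by
    rw [hΞ2]
    exact Finset.mem_union_right _ (Finset.mem_union_right _
      (Finset.mem_image_of_mem _ (Finset.mem_univ i)))
  have hΞ2Ξ : ∀ x ∈ Ξ, x ∈ Ξ2 := fun x hx => by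
    rw [hΞ2]
    exact Finset.mem_union_left _ hx
  obtain ⟨Θ, N0, C, H, hΘ, hH, hsp⟩ := spread3 hF hFΩ hFL hΩF hθ0 Ξ1 Ξ2 Θ2 (by
    intro x hx
    rw [hΞ1] at hx
    obtain ⟨i, -, hx⟩ := Finset.mem_biUnion.1 hx
    rcases Finset.mem_union.1 hx with hx | hx
    · obtain ⟨j, -, rfl⟩ := Finset.mem_image.1 hx
      exact mem_fieldOf Ω hBL ((f i).coeff j).2
    · obtain ⟨j, -, rfl⟩ := Finset.mem_image.1 hx
      exact mem_fieldOf Ω hBL ((r i).coeff j).2) (fun x _ => hall x) hΘ2Ω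
  have hΘs0 : Θc ⊆ Θ := fun x hx => hΘ (by rw [hΘ2]; exact Finset.mem_union_left _ hx)
  have hΘs1 : Θ1 ⊆ Θ := fun x hx => hΘ (by rw [hΘ2]; exact Finset.mem_union_right _ hx)
  have hg0 : π H ≠ 0 := by
    intro h0
    apply hH
    rw [hξ, h0, map_zero]
  refine ⟨Θ, N0, C, π H, hΘs0, hg0, ?_⟩
  intro E _ _ _ S φ hφ hφg
  obtain ⟨z, hzd⟩ : ∃ z : Fin N → E, ∀ i, z i = φ (π (MvPolynomial.X i)) := ⟨_, fun _ => rfl⟩
  have hz : ∀ G, MvPolynomial.aeval z G = φ (π G) := by
    intro G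
    have e : MvPolynomial.aeval z = φ.comp π := by
      apply MvPolynomial.algHom_ext
      intro i
      rw [MvPolynomial.aeval_X, hzd]
      rfl
    rw [e]
    rfl
  obtain ⟨E', i1, i2, i3, i4, i5, hffE', K, j1, j2, j3, j4, j5, hffK, hrk, T, t, hTξ, hT1, hT2,
    hTΘ, ⟨θ0', hθ0', htop⟩, hram⟩ := hsp E z (by
      intro G hG
      rw [hξ] at hG
      have h1 := hinj (hG.trans (map_zero _).symm)
      rw [hz, h1, map_zero]) (by
      rw [hz]
      exact hφg)
  let iEK : Algebra E K := ((algebraMap E' K).comp (algebraMap E E')).toAlgebra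
  have hst : IsScalarTower E E' K := IsScalarTower.of_algebraMap_eq fun _ => rfl
  have hstk : IsScalarTower k E K := IsScalarTower.of_algebraMap_eq fun c => by
    change algebraMap k K c = algebraMap E' K (algebraMap E E' (algebraMap k E c))
    rw [← IsScalarTower.algebraMap_apply k E E', ← IsScalarTower.algebraMap_apply k E' K]
  have hfd : FiniteDimensional E K := FiniteDimensional.trans E E' K
  have hTG : ∀ b, T.T (algebraMap B M b) (algebraMap E K (φ b)) := by
    intro b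
    obtain ⟨G, rfl⟩ := hπ b
    have h1 := Sp_aeval T hTξ G
    have h2 := MvPolynomial.aeval_algebraMap_apply (R := k) K z G
    have h3 : (fun i => algebraMap E' K (algebraMap E E' (z i))) = (algebraMap E K ∘ z) := rfl
    rw [h3, h2, hz, hξ] at h1
    exact h1
  have hα' : ∀ j, T.T (α j) (algebraMap E K (φ (algebraMap B0 B (a j)))) := by
    intro j
    have h1 := hTG (algebraMap B0 B (a j))
    rw [← IsScalarTower.algebraMap_apply B0 B M] at h1
    rw [hαd]
    exact h1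
  -- the specializations
  choose θ' hθ' using fun i => hT2 (θ i) (hΞ2θ i)
  choose c' hc' using fun i => hT2 (c i) (hΞ2c i)
  have hTt : ∀ ϑ ∈ Θ, T.T ϑ (t ϑ) := fun ϑ hϑ => (hTΘ ϑ hϑ).1
  obtain ⟨Bd, hBd1, hBd2⟩ := exists_bad (k := k) Θ t
  have hreg : ∀ P : Place k K, under E P ∉ S → P ∉ Bd → ∀ w ∈ W', ∀ w', T.T w w' → Ge P 0 w' := by
    intro P hPS hPB w hw w' hw'
    exact hb1 K T t Θ hΘs1 hTt P (fun b => ⟨_, hTG b, (ge_under P).2 (Or.inr (hφ _ _ hPS))⟩)
      (hBd1 P hPB) w hw w' hw'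
  have hco : ∀ (g : Fin p → Polynomial (fieldOf B Ω)),
      (∀ i, ∀ j ∈ Finset.range ((g i).natDegree + 1),
        (((g i).coeff j : fieldOf B Ω) : M) ∈ Ξ1) → ∀ i j, ∃ t : E',
        T.T (algebraMap (fieldOf B Ω) M ((g i).coeff j)) (algebraMap E' K t) := by
    intro g hg i j
    by_cases hj : j ∈ Finset.range ((g i).natDegree + 1)
    · exact hT1 _ (hg i j hj)
    · refine ⟨0, ?_⟩
      rw [Finset.mem_range] at hj
      rw [coeff_eq_zero_of_natDegree_lt (by omega), map_zero, map_zero]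
      exact T.zero
  have hunr : ∀ P : Place k K, under E P ∉ S → P ∉ Bd → ram E P = 1 := by
    intro P hPS hPB
    obtain ⟨x, hx⟩ := cover_one (E := E) (E' := E') (i0 := i0) T P (hram P (hBd1 P hPB))
      (fun i => (hf i).2.2.2.1) hr hsum hθ' hc' (by
        rw [T.ext (hθ' i0) hθ0']
        exact htop) (hco f fun i j hj => by
        rw [hΞ1]
        exact Finset.mem_biUnion.2 ⟨i, Finset.mem_univ i, Finset.mem_union_left _
          (Finset.mem_image_of_mem _ hj)⟩) (hco r fun i j hj => by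
        rw [hΞ1]
        exact Finset.mem_biUnion.2 ⟨i, Finset.mem_univ i, Finset.mem_union_right _
          (Finset.mem_image_of_mem _ hj)⟩) (by
        intro i j w' hw'
        by_cases hj : j ∈ Finset.range ((f i).natDegree + 1)
        · exact hreg P hPS hPB _ (hWf i j hj) _ hw'
        · left
          rw [Finset.mem_range] at hj
          rw [coeff_eq_zero_of_natDegree_lt (by omega), map_zero] at hw'
          exact T.uniq hw')
      (fun i => hreg P hPS hPB _ (hWθ i) _ (hθ' i)) (fun i => hreg P hPS hPB _ (hWc i) _ (hc' i))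
    have h3 := ord_under (F := E) P x
    change P.ord (algebraMap E K x) = 1 at hx
    rw [hx] at h3
    have h5 : (ram E P : ℤ) ∣ 1 := ⟨_, h3⟩
    exact_mod_cast Int.eq_one_of_dvd_one (Int.natCast_nonneg _) h5
  obtain ⟨S'', hS1, hS2⟩ := ram_bound (E := E) (K := K) S Bd hunr
  have hfr : Module.finrank E K = Module.finrank E E' * Module.finrank E' K :=
    (Module.finrank_mul_finrank E E' K).symm
  rw [← hfr] at hrk
  refine ⟨K, j1, j2, iEK, hstk, hfd, hffK, hrk, T, t, S'', hTG, fun x hx => hT2 x (hΞ2Ξ x hx),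
    fun ϑ hϑ => ⟨hTt ϑ hϑ, (hTΘ ϑ hϑ).2.1, (hTΘ ϑ hϑ).2.2 _ hα'⟩, ?_, ?_⟩
  · intro P hP
    obtain ⟨h1, h2⟩ := (hS1 P).1 hP
    exact ⟨hBd1 P h2, fun w hw => hreg P h1 h2 w (hWW hw)⟩
  · exact hS2.trans (add_le_add le_rfl (mul_le_mul_of_nonneg_left hBd2 (Int.natCast_nonneg _)))

end Pool.Agent.K4H62.VA
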