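import Pool.Agent.K4H62.VA.Defs
import Pool.Agent.K4H62.HF.Main2

/-!
Specializations of regular functions.
-/

set_option autoImplicit false
set_option linter.overlappingInstances false
set_option linter.unusedSectionVars false

open FF Pool.Agent.W603.LV Pool.Agent.W603.PV Polynomial Pool.Agent.K4H62.HF
open Pool.Agent.TH466.QG (Sp)

namespace Pool.Agent.K4H62.VA

variable {k B M : Type} [Field k] [CommRing B] [Field M] [Algebra k M] [Algebra B M]
  {Ω : IntermediateField k M}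

/-- functions in the ring generated by the constants and `B` -/
theorem adj_reg {x : M} (hx : x ∈ Algebra.adjoin Ω (Set.range (algebraMap B M))) :
    ∃ Θ : Finset M, (∀ ϑ ∈ Θ, ϑ ∈ Ω ∧ ϑ ≠ 0) ∧
      ∀ (K : Type) [Field K] [Algebra k K] (T : Sp k M K) (t : M → K),
        (∀ ϑ ∈ Θ, T.T ϑ (t ϑ)) → ∀ P : Place k K,
          (∀ b : B, ∃ b', T.T (algebraMap B M b) b' ∧ Ge P 0 b') →
          (∀ ϑ ∈ Θ, P.ord (t ϑ) = 0) → ∃ x', T.T x x' ∧ Ge P 0 x' := by
  classical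
  induction hx using Algebra.adjoin_induction with
  | mem x hx =>
    obtain ⟨b, rfl⟩ := hx
    exact ⟨∅, by simp, fun K _ _ T t _ P hb _ => hb b⟩
  | algebraMap c =>
    by_cases hc : c = 0
    · refine ⟨∅, by simp, fun K _ _ T t _ P hb _ => ⟨0, ?_, Or.inl rfl⟩⟩
      rw [hc, map_zero]
      exact T.zero
    · refine ⟨{(c : M)}, ?_, fun K _ _ T t ht P hb hP => ⟨t c, ht _ (by simp), ?_⟩⟩
      · intro ϑ hϑ
        rw [Finset.mem_singleton] at hϑ
        rw [hϑ]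
        exact ⟨c.2, fun h0 => hc (Subtype.ext h0)⟩
      · right
        rw [hP _ (by simp)]
  | add x y _ _ hx hy =>
    obtain ⟨Θ1, h1, h2⟩ := hx
    obtain ⟨Θ2, h3, h4⟩ := hy
    refine ⟨Θ1 ∪ Θ2, ?_, ?_⟩
    · intro ϑ hϑ
      rcases Finset.mem_union.1 hϑ with h | h
      · exact h1 ϑ h
      · exact h3 ϑ h
    · intro K _ _ T t ht P hb hP
      obtain ⟨x', hx', hxP⟩ := h2 K T t (fun ϑ h => ht ϑ (Finset.mem_union_left _ h)) P hb
        fun ϑ h => hP ϑ (Finset.mem_union_left _ h)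
      obtain ⟨y', hy', hyP⟩ := h4 K T t (fun ϑ h => ht ϑ (Finset.mem_union_right _ h)) P hb
        fun ϑ h => hP ϑ (Finset.mem_union_right _ h)
      exact ⟨x' + y', T.add hx' hy', hxP.add hyP⟩
  | mul x y _ _ hx hy =>
    obtain ⟨Θ1, h1, h2⟩ := hx
    obtain ⟨Θ2, h3, h4⟩ := hy
    refine ⟨Θ1 ∪ Θ2, ?_, ?_⟩
    · intro ϑ hϑ
      rcases Finset.mem_union.1 hϑ with h | h
      · exact h1 ϑ h
      · exact h3 ϑ h
    · intro K _ _ T t ht P hb hP
      obtain ⟨x', hx', hxP⟩ := h2 K T t (fun ϑ h => ht ϑ (Finset.mem_union_left _ h)) P hb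
        fun ϑ h => hP ϑ (Finset.mem_union_left _ h)
      obtain ⟨y', hy', hyP⟩ := h4 K T t (fun ϑ h => ht ϑ (Finset.mem_union_right _ h)) P hb
        fun ϑ h => hP ϑ (Finset.mem_union_right _ h)
      refine ⟨x' * y', T.mul hx' hy', ?_⟩
      have := hxP.mul hyP
      rwa [add_zero] at this

/-- integral functions -/
theorem int_reg1 {w : M} (hw : IntOver B Ω w) :
    ∃ Θ : Finset M, (∀ ϑ ∈ Θ, ϑ ∈ Ω ∧ ϑ ≠ 0) ∧
      ∀ (K : Type) [Field K] [Algebra k K] (T : Sp k M K) (t : M → K),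
        (∀ ϑ ∈ Θ, T.T ϑ (t ϑ)) → ∀ P : Place k K,
          (∀ b : B, ∃ b', T.T (algebraMap B M b) b' ∧ Ge P 0 b') →
          (∀ ϑ ∈ Θ, P.ord (t ϑ) = 0) → ∀ w', T.T w w' → Ge P 0 w' := by
  classical
  obtain ⟨p, hpm, hp⟩ := hw
  obtain ⟨n, hn⟩ : ∃ n, n = p.natDegree := ⟨_, rfl⟩
  have hrel : w ^ n + ∑ j ∈ Finset.range n, (p.coeff j : M) * w ^ j = 0 := by
    have h1 : Polynomial.aeval w p = 0 := hp
    rw [Polynomial.aeval_eq_sum_range, Finset.sum_range_succ, ← hn] at h1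
    have h2 : p.coeff n = 1 := by
      rw [hn]
      exact hpm.coeff_natDegree
    rw [h2, one_smul, add_comm] at h1
    rw [← h1]
    congr 1
  choose Θ h1 h2 using fun j => adj_reg (p.coeff j).2
  refine ⟨(Finset.range n).biUnion Θ, ?_, ?_⟩
  · intro ϑ hϑ
    obtain ⟨j, -, hj⟩ := Finset.mem_biUnion.1 hϑ
    exact h1 j ϑ hj
  · intro K _ _ T t ht P hb hP w' hw'
    have h3 : ∀ j, ∃ c : K, j ∈ Finset.range n → T.T (p.coeff j : M) c ∧ Ge P 0 c := by
      intro j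
      by_cases hj : j ∈ Finset.range n
      · obtain ⟨c, hc⟩ := h2 j K T t (fun ϑ h => ht ϑ (Finset.mem_biUnion.2 ⟨j, hj, h⟩)) P hb
          fun ϑ h => hP ϑ (Finset.mem_biUnion.2 ⟨j, hj, h⟩)
        exact ⟨c, fun _ => hc⟩
      · exact ⟨0, fun h => absurd h hj⟩
    choose c hc using h3
    have hrel' : w' ^ n + ∑ j ∈ Finset.range n, c j * w' ^ j = 0 := by
      refine T.eq_zero ?_ hrel
      exact T.add (T.pow hw' n) (T.sum _ fun j hj => T.mul (hc j hj).1 (T.pow hw' j))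
    have h4 := ge_of_monic P c (le_refl 0) (fun j hj => by
      rw [neg_zero]
      exact (hc j (Finset.mem_range.2 hj)).2) hrel'
    rwa [neg_zero] at h4

/-- **Specializations of regular functions.** -/
theorem int_reg (W : Finset M) (hW : ∀ w ∈ W, IntOver B Ω w) :
    ∃ Θ : Finset M, (∀ ϑ ∈ Θ, ϑ ∈ Ω ∧ ϑ ≠ 0) ∧
      ∀ (K : Type) [Field K] [Algebra k K] (T : Sp k M K) (t : M → K) (Θ' : Finset M), Θ ⊆ Θ' →
        (∀ ϑ ∈ Θ', T.T ϑ (t ϑ)) → ∀ P : Place k K,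
          (∀ b : B, ∃ b', T.T (algebraMap B M b) b' ∧ Ge P 0 b') →
          (∀ ϑ ∈ Θ', P.ord (t ϑ) = 0) → ∀ w ∈ W, ∀ w', T.T w w' → Ge P 0 w' := by
  classical
  have h1 : ∀ w : M, ∃ Θ : Finset M, w ∈ W → (∀ ϑ ∈ Θ, ϑ ∈ Ω ∧ ϑ ≠ 0) ∧
      ∀ (K : Type) [Field K] [Algebra k K] (T : Sp k M K) (t : M → K),
        (∀ ϑ ∈ Θ, T.T ϑ (t ϑ)) → ∀ P : Place k K,
          (∀ b : B, ∃ b', T.T (algebraMap B M b) b' ∧ Ge P 0 b') →
          (∀ ϑ ∈ Θ, P.ord (t ϑ) = 0) → ∀ w', T.T w w' → Ge P 0 w' := by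
    intro w
    by_cases h : w ∈ W
    · obtain ⟨Θ, h2⟩ := int_reg1 (hW w h)
      exact ⟨Θ, fun _ => h2⟩
    · exact ⟨∅, fun h' => absurd h' h⟩
  choose Θ hΘ using h1
  refine ⟨W.biUnion Θ, ?_, ?_⟩
  · intro ϑ hϑ
    obtain ⟨w, hw, h2⟩ := Finset.mem_biUnion.1 hϑ
    exact (hΘ w hw).1 ϑ h2
  · intro K _ _ T t Θ' hsub hT P hb hP w hw w' hw'
    have h3 : Θ w ⊆ Θ' := (Finset.subset_biUnion_of_mem Θ hw).trans hsub
    exact (hΘ w hw).2 K T t (fun ϑ hϑ => hT ϑ (h3 hϑ)) P hb (fun ϑ hϑ => hP ϑ (h3 hϑ)) w' hw'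

/-- the roots of monic polynomials with regular coefficients are regular -/
theorem intOver_of_monic {F2 : Type} [Field F2] [Algebra F2 M] {θ : M} {f : F2[X]}
    (hf : f.Monic) (hco : ∀ j, IntOver B Ω (algebraMap F2 M (f.coeff j)))
    (hθ : aeval θ f = 0) : IntOver B Ω θ := by
  classical
  obtain ⟨R, hR⟩ : ∃ R : Subalgebra (Algebra.adjoin Ω (Set.range (algebraMap B M))) M,
    R = integralClosure _ M := ⟨_, rfl⟩
  have hmem : ∀ x : M, x ∈ R ↔ IntOver B Ω x := fun x => by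
    rw [hR]
    exact Iff.rfl
  have h1 : IsIntegral R θ := by
    let c : ℕ → R := fun j => ⟨algebraMap F2 M (f.coeff j), (hmem _).2 (hco j)⟩
    refine ⟨Polynomial.X ^ f.natDegree + ∑ j ∈ Finset.range f.natDegree,
      Polynomial.C (c j) * Polynomial.X ^ j, ?_, ?_⟩
    · refine Polynomial.monic_X_pow_add ?_
      rw [Polynomial.degree_lt_iff_coeff_zero]
      intro m hm
      rw [Polynomial.finsetSum_coeff]
      refine Finset.sum_eq_zero fun j hj => ?_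
      rw [Polynomial.coeff_C_mul_X_pow, if_neg]
      rw [Finset.mem_range] at hj
      omega
    · have h2 := monic_rel hf hθ
      rw [Polynomial.eval₂_add, Polynomial.eval₂_pow, Polynomial.eval₂_X,
        Polynomial.eval₂_finsetSum, ← h2]
      congr 1
      refine Finset.sum_congr rfl fun j _ => ?_
      rw [Polynomial.eval₂_mul, Polynomial.eval₂_C, Polynomial.eval₂_pow, Polynomial.eval₂_X]
      rfl
  rw [← hmem, hR]
  rw [hR] at h1
  exact isIntegral_trans (R := Algebra.adjoin Ω (Set.range (algebraMap B M))) _ h1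

end Pool.Agent.K4H62.VA
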