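import Pool.Agent.K4H62.VA.Stab
import Pool.Agent.K4H62.VA.Lift
import Pool.Agent.K4H62.HF.TMain

/-!
The height inequality for fibrations in very affine varieties.
-/

set_option autoImplicit false
set_option linter.overlappingInstances false
set_option linter.unusedSectionVars false

open FF Pool.Agent.W603.LV Pool.Agent.W603.PV Pool.Agent.K4H62.HF
open Pool.Agent.TH466.QG (Sp)

namespace Pool.Agent.K4H62.VA

section bound

variable {k K : Type} [Field k] [Field K] [Algebra k K] [CharZero k] [IsFF k K] [IsAlgClosed k]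

/-- the constant -/
def dc (s n : ℕ) : ℕ := s * (n * (tri s).toNat)

/-- **The heights of the quotients of the monomials in a minimal relation.** -/
theorem mon_bound (S : Finset (Place k K)) {N : ℕ} {U : Set (Fin N)} {u : Fin N → K}
    (hu0 : ∀ i, u i ≠ 0) (hu : ∀ P ∉ S, ∀ i ∈ U, P.ord (u i) = 0) (J : Finset (Fin N → ℕ))
    (f : (Fin N → ℕ) → K) {n : ℕ} (hn0 : 0 < n) (hn : (J.card - 1) ^ 2 ≤ n)
    (hdvd : ∀ e ∈ J, ∀ i, i ∉ U → n ∣ e i) (hf0 : ∀ e ∈ J, f e ≠ 0) (hf : ∀ e ∈ J, ∀ P ∉ S, P.ord (f e) = 0)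
    (hrel : ∑ e ∈ J, f e * ∏ i, u i ^ e i = 0)
    (hmin : ∀ J' ⊆ J, J'.Nonempty → J' ≠ J → ∑ e ∈ J', f e * ∏ i, u i ^ e i ≠ 0)
    {e1 e2 : Fin N → ℕ} (h1 : e1 ∈ J) (h2 : e2 ∈ J) {q : Fin N → ℤ}
    (hq : ∀ i, q i = (e1 i : ℤ) - e2 i) {Ht : ℤ} (hHt : ∀ e ∈ J, hgt k (f e) ≤ Ht) :
    hgt k (mon u q) ≤ dc J.card n * max (canDeg k K + S.card) 0 + 2 * Ht := by
  have key := rel_bound S hu0 hu J f hn0 hn hdvd hf0 hf hrel hmin h1 h2
  have hp0 : ∀ e : Fin N → ℕ, ∏ i, u i ^ e i ≠ 0 := fun e =>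
    Finset.prod_ne_zero_iff.2 fun i _ => pow_ne_zero _ (hu0 i)
  have e1' : mon u q = (∏ i, u i ^ e1 i) / ∏ i, u i ^ e2 i := by
    unfold mon
    rw [← Finset.prod_div_distrib]
    refine Finset.prod_congr rfl fun i _ => ?_
    rw [hq, zpow_sub₀ (hu0 i), zpow_natCast, zpow_natCast]
  have e2' : mon u q = ((f e1 * ∏ i, u i ^ e1 i) / (f e2 * ∏ i, u i ^ e2 i)) *
      (f e2 * (f e1)⁻¹) := by
    rw [e1']
    have := hf0 e1 h1
    have := hf0 e2 h2
    have := hp0 e1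
    have := hp0 e2
    field_simp
  have h3 : ((tri J.card).toNat : ℤ) = tri J.card := Int.toNat_of_nonneg (tri_nonneg _)
  rw [e2']
  have h4 := hgt_mul (k := k) (div_ne_zero (mul_ne_zero (hf0 e1 h1) (hp0 e1))
    (mul_ne_zero (hf0 e2 h2) (hp0 e2))) (mul_ne_zero (hf0 e2 h2) (inv_ne_zero (hf0 e1 h1)))
  have h5 := hgt_mul (k := k) (hf0 e2 h2) (inv_ne_zero (hf0 e1 h1))
  rw [hgt_inv] at h5
  have h6 := hHt e1 h1
  have h7 := hHt e2 h2
  have h8 : ((dc J.card n : ℕ) : ℤ) * max (canDeg k K + S.card) 0 =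
      J.card * (n * tri J.card * max (canDeg k K + S.card) 0) := by
    unfold dc
    rw [Nat.cast_mul, Nat.cast_mul, h3]
    ring
  rw [h8]
  linarith

end bound

theorem sp_inv {k M K : Type} [Field k] [Field M] [Field K] [Algebra k M] [Algebra k K]
    (T : Sp k M K) {x : M} {x' : K} (h : T.T x x') (hinv : ∃ e, T.T x⁻¹ e) (hx : x ≠ 0) :
    x' ≠ 0 ∧ T.T x⁻¹ x'⁻¹ := by
  have hx' := T.ne_zero h hinv hx
  refine ⟨hx', ?_⟩
  obtain ⟨e, he⟩ := hinv
  have h1 := T.mul h he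
  rw [mul_inv_cancel₀ hx] at h1
  have h2 := T.ext h1 T.one
  have h3 : e = x'⁻¹ := by
    field_simp
    rw [mul_comm]
    exact h2
  rw [← h3]
  exact he

/-- **The relative height inequality.** -/
theorem relative_va {k B0 B M : Type} [Field k] [IsAlgClosed k] [CharZero k] [CommRing B0]
    [CommRing B] [Field M] [Algebra k B0] [Algebra k B] [Algebra.FiniteType k B] [Algebra k M]
    [Algebra B0 B] [Algebra B0 M] [Algebra B M] [IsScalarTower k B0 B] [IsScalarTower k B M]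
    [IsScalarTower B0 B M] {Ω : IntermediateField k M} (h : Covering B0 B Ω) {n : ℕ}
    {U : Set (Fin n)} {u : Fin n → M} (hu : MonomialMap B Ω U u) {m : ℕ}
    (a : Fin m → B0) (ha : Algebra.adjoin k (Set.range a) = ⊤) :
    ∃ g : B, g ≠ 0 ∧ ∀ b : B, ∃ A : ℕ, ∀ (E : Type) [Field E] [Algebra k E] [IsFF k E]
      (S : Finset (Place k E)) (φ : B →ₐ[k] E), (∀ b, ∀ P ∉ S, 0 ≤ P.ord (φ b)) → φ g ≠ 0 →
        hgt k (φ b) ≤ A * (max (canDeg k E + S.card) 0 +
          ∑ j, hgt k (φ (algebraMap B0 B (a j)))) := by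
  classical
  obtain ⟨Q, hQ, hspan⟩ := torus_data hu
  -- the relations
  have hQ' : ∀ q : Fin n → ℤ, ∃ (J : Finset (Fin n → ℕ)) (f : (Fin n → ℕ) → M) (nq : ℕ)
      (e1 e2 : Fin n → ℕ), q ∈ Q → MinRel Ω U u J f nq ∧ e1 ∈ J ∧ e2 ∈ J ∧
        ∀ i, q i = (e1 i : ℤ) - e2 i := by
    intro q
    by_cases hq : q ∈ Q
    · obtain ⟨J, f, nq, h1, e1, h2, e2, h3, h4⟩ := hQ q hq
      exact ⟨J, f, nq, e1, e2, fun _ => ⟨h1, h2, h3, h4⟩⟩
    · exact ⟨∅, fun _ => 0, 0, 0, 0, fun h => absurd h hq⟩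
  choose J f nq e1 e2 hJ using hQ'
  -- the coordinates
  obtain ⟨NB, x, hx⟩ := exists_gens k B
  obtain ⟨ξ, hξ⟩ : ∃ ξ : Fin NB → M, ∀ i, ξ i = algebraMap B M (x i) := ⟨_, fun _ => rfl⟩
  obtain ⟨α, hα⟩ : ∃ α : Fin m → M, ∀ j, α j = algebraMap B0 M (a j) := ⟨_, fun _ => rfl⟩
  have hst0 : IsScalarTower k B0 M := by
    refine IsScalarTower.of_algebraMap_eq fun c => ?_
    rw [IsScalarTower.algebraMap_apply k B M, IsScalarTower.algebraMap_apply k B0 B,
      ← IsScalarTower.algebraMap_apply B0 B M]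
  have halg : ∀ w : M, IsAlgebraic (IntermediateField.adjoin k (Set.range (Fin.append u α))) w := by
    intro w
    obtain ⟨F', hF'⟩ : ∃ F' : IntermediateField k M,
      F' = IntermediateField.adjoin k (Set.range (Fin.append u α)) := ⟨_, rfl⟩
    rw [← hF']
    have hαF : ∀ j, α j ∈ F' := fun j => by
      rw [hF']
      exact IntermediateField.subset_adjoin k _ ⟨Fin.natAdd n j, Fin.append_right u α j⟩
    have huF : ∀ i, u i ∈ F' := fun i => by
      rw [hF']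
      exact IntermediateField.subset_adjoin k _ ⟨Fin.castAdd m i, Fin.append_left u α i⟩
    have hB0F : ∀ b : B0, algebraMap B0 M b ∈ F' := by
      intro b
      have hb : b ∈ Algebra.adjoin k (Set.range a) := by
        rw [ha]
        exact Algebra.mem_top
      induction hb using Algebra.adjoin_induction with
      | mem x hx =>
        obtain ⟨j, rfl⟩ := hx
        rw [← hα]
        exact hαF j
      | algebraMap c =>
        rw [← IsScalarTower.algebraMap_apply k B0 M]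
        exact algebraMap_mem _ _
      | add x y _ _ hx hy =>
        rw [map_add]
        exact add_mem hx hy
      | mul x y _ _ hx hy =>
        rw [map_mul]
        exact mul_mem hx hy
    have hinj1 : Function.Injective (algebraMap B0 M) := by
      rw [IsScalarTower.algebraMap_eq B0 B M]
      exact h.inj.comp h.inj0
    refine alg_trans' F' Ω (Set.range u) (fun c hc => alg_of_ring hinj1 F' hB0F (h.alg c hc)) ?_
      (hu.fin w)
    rintro _ ⟨i, rfl⟩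
    exact isAlgebraic_algebraMap (R := F') (A := M) ⟨u i, huF i⟩
  obtain ⟨Θh, C2, hΘh, hC2⟩ := alg_hgt' (Fin.append u α) (Finset.univ.image ξ) fun ϑ _ => halg ϑ
  obtain ⟨Ξ, hΞ⟩ : ∃ Ξ : Finset M, Ξ = Θh ∪ (Finset.univ.image u ∪ (Finset.univ.image
    (fun i => (u i)⁻¹) ∪ Q.biUnion fun q => (J q).powerset.image
      fun J' => (∑ e ∈ J', f q e * ∏ i, u i ^ e i)⁻¹)) := ⟨_, rfl⟩
  have hΞh : ∀ x ∈ Θh, x ∈ Ξ := fun x hx => by
    rw [hΞ]
    exact Finset.mem_union_left _ hx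
  have hΞu : ∀ i, u i ∈ Ξ := fun i => by
    rw [hΞ]
    exact Finset.mem_union_right _ (Finset.mem_union_left _
      (Finset.mem_image_of_mem _ (Finset.mem_univ i)))
  have hΞv : ∀ i, (u i)⁻¹ ∈ Ξ := fun i => by
    rw [hΞ]
    exact Finset.mem_union_right _ (Finset.mem_union_right _ (Finset.mem_union_left _
      (Finset.mem_image.2 ⟨i, Finset.mem_univ i, rfl⟩)))
  have hΞs : ∀ q ∈ Q, ∀ J' ⊆ J q, (∑ e ∈ J', f q e * ∏ i, u i ^ e i)⁻¹ ∈ Ξ := by
    intro q hq J' hJ'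
    rw [hΞ]
    exact Finset.mem_union_right _ (Finset.mem_union_right _ (Finset.mem_union_right _
      (Finset.mem_biUnion.2 ⟨q, hq, Finset.mem_image.2 ⟨J', Finset.mem_powerset.2 hJ', rfl⟩⟩)))
  obtain ⟨W, hW⟩ : ∃ W : Finset M, W = (Finset.univ.filter fun i => i ∈ U).image u ∪
    (Finset.univ.filter fun i => i ∈ U).image (fun i => (u i)⁻¹) := ⟨_, rfl⟩
  obtain ⟨Θc, hΘc⟩ : ∃ Θc : Finset M, Θc = Q.biUnion fun q => (J q).image (f q) := ⟨_, rfl⟩
  obtain ⟨Θ, N0, C, g, hΘ, hg, hlift⟩ := lift h.inj0 h.inj h.base h.alg h.etale a ha Ξ W Θc (by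
    intro w hw
    rw [hW] at hw
    rcases Finset.mem_union.1 hw with hw | hw
    · obtain ⟨i, hi, rfl⟩ := Finset.mem_image.1 hw
      exact (hu.unit i (Finset.mem_filter.1 hi).2).1
    · obtain ⟨i, hi, rfl⟩ := Finset.mem_image.1 hw
      exact (hu.unit i (Finset.mem_filter.1 hi).2).2) (by
    intro ϑ hϑ
    rw [hΘc] at hϑ
    obtain ⟨q, hq, hϑ⟩ := Finset.mem_biUnion.1 hϑ
    obtain ⟨e, he, rfl⟩ := Finset.mem_image.1 hϑ
    exact (hJ q hq).1.co e he)
  refine ⟨g, hg, ?_⟩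
  intro b
  have hb : b ∈ Algebra.adjoin k (Set.range x) := by
    rw [hx]
    exact Algebra.mem_top
  rw [Algebra.adjoin_range_eq_range_aeval] at hb
  obtain ⟨G, rfl⟩ := hb
  obtain ⟨C1, hC1⟩ : ∃ C1 : ℕ, C1 = (∑ j, cst (∅ : Finset (Fin n)) Q j) *
    (∑ q ∈ Q, dc (J q).card (nq q) + 2) := ⟨_, rfl⟩
  obtain ⟨A, hA⟩ : ∃ A : ℕ, A = G.totalDegree * NB * C2 * (C1 * N0 + C1 * (2 * N0 + 0 + 1) *
    (Θ.card * C * N0) + N0) := ⟨_, rfl⟩
  refine ⟨A, ?_⟩
  intro E _ _ _ S φ hφ hφg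
  obtain ⟨K, _, _, _, _, _, _, hrk, T, t, S', hTB, hTΞ, hTΘ, hS', hχK⟩ := hlift E S φ hφ hφg
  -- the specializations
  choose u' hu' using fun i => hTΞ (u i) (hΞu i)
  have hui : ∀ i, u' i ≠ 0 ∧ T.T (u i)⁻¹ (u' i)⁻¹ := fun i =>
    sp_inv T (hu' i) (hTΞ _ (hΞv i)) (hu.ne i)
  have huord : ∀ P ∉ S', ∀ i ∈ U, P.ord (u' i) = 0 := by
    intro P hP i hiU
    have h1 := (hS' P hP).2 (u i) (by
      rw [hW]
      exact Finset.mem_union_left _ (Finset.mem_image_of_mem _ (Finset.mem_filter.2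
        ⟨Finset.mem_univ i, hiU⟩))) _ (hu' i)
    have h2 := (hS' P hP).2 (u i)⁻¹ (by
      rw [hW]
      exact Finset.mem_union_right _ (Finset.mem_image.2 ⟨i, Finset.mem_filter.2
        ⟨Finset.mem_univ i, hiU⟩, rfl⟩)) _ (hui i).2
    have h3 := h1.resolve_left (hui i).1
    have h4 := h2.resolve_left (inv_ne_zero (hui i).1)
    rw [P.ord_inv] at h4
    omega
  have hJΘ : ∀ q ∈ Q, ∀ e ∈ J q, f q e ∈ Θ := by
    intro q hq e he
    apply hΘ
    rw [hΘc]
    exact Finset.mem_biUnion.2 ⟨q, hq, Finset.mem_image_of_mem _ he⟩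
  obtain ⟨Ht, hHtd⟩ : ∃ Ht : ℤ, Ht = ∑ ϑ ∈ Θ, hgt k (t ϑ) := ⟨_, rfl⟩
  have hHt0 : 0 ≤ Ht := by
    rw [hHtd]
    exact Finset.sum_nonneg fun _ _ => hgt_nonneg _
  obtain ⟨χK, hχKd⟩ : ∃ χK : ℤ, χK = max (canDeg k K + (S'.card : ℤ)) 0 := ⟨_, rfl⟩
  have hχK0 : 0 ≤ χK := by
    rw [hχKd]
    exact le_max_right _ _
  have hsumT : ∀ q ∈ Q, ∀ J' ⊆ J q, T.T (∑ e ∈ J', f q e * ∏ i, u i ^ e i)
      (∑ e ∈ J', t (f q e) * ∏ i, u' i ^ e i) := by
    intro q hq J' hJ'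
    exact T.sum _ fun e he => T.mul (hTΘ _ (hJΘ q hq e (hJ' he))).1
      (T.prod _ fun i _ => T.pow (hu' i) _)
  have hmon : ∀ q ∈ Q, hgt k (mon u' q) ≤ ((∑ q ∈ Q, dc (J q).card (nq q) + 2 : ℕ) : ℤ) * (χK + Ht) := by
    intro q hq
    obtain ⟨h1, h2, h3, h4⟩ := hJ q hq
    have h5 := mon_bound S' (fun i => (hui i).1) huord (J q) (fun e => t (f q e)) h1.pos h1.large
      h1.dvd
      (fun e he => (hTΘ _ (hJΘ q hq e he)).2.1)
      (fun e he P hP => (hS' P hP).1 _ (hJΘ q hq e he))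
      (T.eq_zero (hsumT q hq _ subset_rfl) h1.rel)
      (fun J' hJ' hne hneq => T.ne_zero (hsumT q hq J' hJ') (hTΞ _ (hΞs q hq J' hJ'))
        (h1.min J' hJ' hne hneq)) h2 h3 h4 (Ht := Ht) (fun e he => by
        rw [hHtd]
        exact Finset.single_le_sum (f := fun ϑ => hgt k (t ϑ)) (fun _ _ => hgt_nonneg _)
          (hJΘ q hq e he))
    rw [← hχKd] at h5
    have h6 : (dc (J q).card (nq q) : ℤ) ≤ ((∑ q ∈ Q, dc (J q).card (nq q) : ℕ) : ℤ) := by
      exact_mod_cast Finset.single_le_sum (f := fun q => dc (J q).card (nq q)) (fun _ _ => Nat.zero_le _) hq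
    have h7 := mul_le_mul_of_nonneg_right h6 hχK0
    have h8 : 0 ≤ ((∑ q ∈ Q, dc (J q).card (nq q) : ℕ) : ℤ) * Ht :=
      mul_nonneg (Int.natCast_nonneg _) hHt0
    push_cast at h7 h8 ⊢
    linarith
  have hY : ∑ i, hgt k (u' i) ≤ C1 * (χK + (0 : ℕ) * Ht + Ht) := by
    have h1 : ∀ i, hgt k (u' i) ≤ cst (∅ : Finset (Fin n)) Q i *
        (((∑ q ∈ Q, dc (J q).card (nq q) + 2 : ℕ) : ℤ) * (χK + Ht)) := fun i =>
      hgt_le_cst (J0 := ∅) (Q := Q) (j := i) (by simp) (hspan i) (fun i => (hui i).1) (by simp) hmon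
    refine (Finset.sum_le_sum fun i _ => h1 i).trans ?_
    rw [← Finset.sum_mul, hC1]
    push_cast
    rw [← mul_assoc]
    apply le_of_eq
    ring
  -- the heights
  have hfr1 : 1 ≤ Module.finrank E K := Module.finrank_pos
  have hα' : ∀ j, T.T (α j) (algebraMap E K (φ (algebraMap B0 B (a j)))) := by
    intro j
    have h1 := hTB (algebraMap B0 B (a j))
    rw [← IsScalarTower.algebraMap_apply B0 B M] at h1
    rw [hα]
    exact h1
  have hξh : ∀ i, hgt k (algebraMap E K (φ (x i))) ≤ C2 * (∑ i, hgt k (u' i) +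
      ∑ j, hgt k (algebraMap E K (φ (algebraMap B0 B (a j))))) := by
    intro i
    have h1 := hC2 K T (fun ϑ hϑ => hTΞ ϑ (hΞh ϑ hϑ))
      (Fin.append u' fun j => algebraMap E K (φ (algebraMap B0 B (a j)))) (fun j => by
      refine Fin.addCases (fun j => ?_) (fun j => ?_) j
      · rw [Fin.append_left, Fin.append_left]
        exact hu' j
      · rw [Fin.append_right, Fin.append_right]
        exact hα' j) (ξ i) (Finset.mem_image_of_mem _ (Finset.mem_univ i)) _ (by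
        rw [hξ]
        exact hTB (x i))
    rw [Fin.sum_univ_add] at h1
    simp only [Fin.append_left, Fin.append_right] at h1
    exact h1
  have hmv := hgt_mvpoly (k := k) (fun i => φ (x i)) G
  have hαh : ∀ j, hgt k (algebraMap E K (φ (algebraMap B0 B (a j)))) =
      Module.finrank E K * hgt k (φ (algebraMap B0 B (a j))) := fun j => hgt_algebraMap _
  have hzh : ∀ i, hgt k (φ (x i)) ≤ hgt k (algebraMap E K (φ (x i))) := by
    intro i
    rw [hgt_algebraMap]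
    have h1 : (1 : ℤ) ≤ Module.finrank E K := by exact_mod_cast hfr1
    have := hgt_nonneg (k := k) (φ (x i))
    nlinarith
  have hHa : ∑ j, hgt k (algebraMap E K (φ (algebraMap B0 B (a j)))) =
      Module.finrank E K * ∑ j, hgt k (φ (algebraMap B0 B (a j))) := by
    rw [Finset.mul_sum]
    exact Finset.sum_congr rfl fun j _ => hαh j
  have hHt : Ht ≤ Θ.card *
      (C * ∑ j, hgt k (algebraMap E K (φ (algebraMap B0 B (a j))))) := by
    rw [hHtd]
    refine (Finset.sum_le_sum fun ϑ hϑ => (hTΘ ϑ hϑ).2.2).trans ?_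
    rw [Finset.sum_const, nsmul_eq_mul]
  have hHz : ∑ i, hgt k (φ (x i)) ≤ NB * (C2 * (∑ i, hgt k (u' i) +
      ∑ j, hgt k (algebraMap E K (φ (algebraMap B0 B (a j)))))) := by
    refine (Finset.sum_le_sum fun i _ => (hzh i).trans (hξh i)).trans ?_
    rw [Finset.sum_const, nsmul_eq_mul, Finset.card_univ, Fintype.card_fin]
  have hχ0 : 0 ≤ max (canDeg k E + (S.card : ℤ)) 0 := le_max_right _ _
  have hHφ0 : 0 ≤ ∑ j, hgt k (φ (algebraMap B0 B (a j))) :=
    Finset.sum_nonneg fun _ _ => hgt_nonneg _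
  have hfr1' : (1 : ℤ) ≤ Module.finrank E K := by exact_mod_cast hfr1
  have hrk' : (Module.finrank E K : ℤ) ≤ N0 := by exact_mod_cast hrk
  have hχK' : χK ≤ N0 * max (canDeg k E + (S.card : ℤ)) 0 + N0 * (2 * Ht) := by
    have hfr0 : (0 : ℤ) ≤ Module.finrank E K := by linarith
    have hN0 : (0 : ℤ) ≤ N0 := by linarith
    rw [hχKd]
    refine max_le ?_ ?_
    · refine hχK.trans (add_le_add ?_ ?_)
      · exact (mul_le_mul_of_nonneg_left (le_max_left _ _) hfr0).trans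
          (mul_le_mul_of_nonneg_right hrk' hχ0)
      · rw [hHtd] at hHt0 ⊢
        exact mul_le_mul_of_nonneg_right hrk' (by linarith)
    · have h1 := mul_nonneg hN0 hχ0
      have h2 := mul_nonneg hN0 (by linarith : 0 ≤ 2 * Ht)
      linarith
  have hG : φ (MvPolynomial.aeval x G) = MvPolynomial.aeval (fun i => φ (x i)) G := by
    rw [MvPolynomial.comp_aeval_apply]
  change hgt k (φ (MvPolynomial.aeval x G)) ≤ _
  rw [hG]
  have hfin := book (N0 := N0) (Θc := Θ.card) (C := C) (C1 := C1) (q := 0) (C2 := C2) (N := NB)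
    (dg := G.totalDegree) hχ0 hHφ0 hfr1' hrk' hHa hHt0 hHt hχK' hY hHz hmv
  rw [← hA] at hfin
  exact hfin

end Pool.Agent.K4H62.VA
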