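import Pool.Agent.K4H62.VA.Defs
import Pool.Agent.W603.LV.Main

/-!
Minimal relations between the monomials.
-/

set_option autoImplicit false
set_option linter.overlappingInstances false
set_option linter.unusedSectionVars false

open FF Pool.Agent.W603.LV Pool.Agent.K4H62.HF

namespace Pool.Agent.K4H62.VA

section gen

variable {k M : Type} [Field k] [Field M] [Algebra k M]

/-- a minimal relation between the monomials -/
structure MinRel (Ω : IntermediateField k M) {N : ℕ} (U : Set (Fin N)) (u : Fin N → M)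
    (J : Finset (Fin N → ℕ)) (f : (Fin N → ℕ) → M) (n : ℕ) : Prop where
  co : ∀ e ∈ J, f e ∈ Ω ∧ f e ≠ 0
  pos : 0 < n
  large : (J.card - 1) ^ 2 ≤ n
  dvd : ∀ e ∈ J, ∀ i, i ∉ U → n ∣ e i
  rel : ∑ e ∈ J, f e * ∏ i, u i ^ e i = 0
  min : ∀ J' ⊆ J, J'.Nonempty → J' ≠ J → ∑ e ∈ J', f e * ∏ i, u i ^ e i ≠ 0

variable {Ω : IntermediateField k M} {N : ℕ} {U : Set (Fin N)} {u : Fin N → M}

theorem parts_zero {b : Fin N → ℤ} (hneg : ∀ J f n, MinRel Ω U u J f n → ∀ e1 ∈ J, ∀ e2 ∈ J,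
    ∑ i, b i * (e1 i : ℤ) = ∑ i, b i * (e2 i : ℤ)) (n : ℕ) (hn0 : 0 < n) (s : ℕ) :
    ∀ (J : Finset (Fin N → ℕ)) (f : (Fin N → ℕ) → M), J.card ≤ s → (∀ e ∈ J, f e ∈ Ω ∧ f e ≠ 0) →
      (J.card - 1) ^ 2 ≤ n → (∀ e ∈ J, ∀ i, i ∉ U → n ∣ e i) →
      ∑ e ∈ J, f e * ∏ i, u i ^ e i = 0 → ∀ c : ℤ,
        ∑ e ∈ J with ∑ i, b i * (e i : ℤ) = c, f e * ∏ i, u i ^ e i = 0 := by
  classical
  induction s with
  | zero =>
    intro J f hJ _ _ _ _ c
    have h1 : J = ∅ := Finset.card_eq_zero.1 (by omega)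
    rw [h1]
    simp
  | succ s ih =>
    intro J f hJ hf hJn hJd hsum c
    by_cases hJ0 : J = ∅
    · rw [hJ0]
      simp
    obtain ⟨J1, hJ1, hmin⟩ := Finset.exists_min_image
      (J.powerset.filter fun J1 => J1.Nonempty ∧ ∑ e ∈ J1, f e * ∏ i, u i ^ e i = 0)
      Finset.card ⟨J, by
        rw [Finset.mem_filter]
        exact ⟨Finset.mem_powerset_self J, Finset.nonempty_iff_ne_empty.2 hJ0, hsum⟩⟩
    rw [Finset.mem_filter, Finset.mem_powerset] at hJ1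
    obtain ⟨hsub, hne, hs1⟩ := hJ1
    have hle : ∀ J' ⊆ J, (J'.card - 1) ^ 2 ≤ n := fun J' h =>
      (Nat.pow_le_pow_left (Nat.sub_le_sub_right (Finset.card_le_card h) 1) 2).trans hJn
    have hM : MinRel Ω U u J1 f n := by
      refine ⟨fun e he => hf e (hsub he), hn0, hle J1 hsub, fun e he => hJd e (hsub he), hs1,
        fun J' hJ' hne' hneq h0 => ?_⟩
      have h1 := hmin J' (by
        rw [Finset.mem_filter, Finset.mem_powerset]
        exact ⟨hJ'.trans hsub, hne', h0⟩)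
      exact absurd (Finset.eq_of_subset_of_card_le hJ' h1) hneq
    have h2 := hneg J1 f n hM
    have h3 : ∑ e ∈ J1 with ∑ i, b i * (e i : ℤ) = c, f e * ∏ i, u i ^ e i = 0 := by
      obtain ⟨e0, he0⟩ := hne
      by_cases hc : ∑ i, b i * (e0 i : ℤ) = c
      · rw [Finset.filter_true_of_mem fun e he => (h2 e he e0 he0).trans hc]
        exact hs1
      · rw [Finset.filter_false_of_mem fun e he h => hc ((h2 e he e0 he0).symm.trans h)]
        simp
    have h4 : ∑ e ∈ J \ J1, f e * ∏ i, u i ^ e i = 0 := by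
      have := Finset.sum_sdiff (f := fun e => f e * ∏ i, u i ^ e i) hsub
      rw [hs1, add_zero, hsum] at this
      exact this
    have h5 : (J \ J1).card ≤ s := by
      have h6 := Finset.card_sdiff_add_card_eq_card hsub
      have h7 := Finset.card_pos.2 hne
      omega
    have h6 := ih (J \ J1) f h5 (fun e he => hf e (Finset.mem_sdiff.1 he).1)
      (hle _ Finset.sdiff_subset) (fun e he => hJd e (Finset.mem_sdiff.1 he).1) h4 c
    rw [Finset.sum_filter] at h3 h6 ⊢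
    rw [← Finset.sum_sdiff hsub, h3, h6, add_zero]

theorem exists_min {B : Type} [CommRing B] [Algebra B M] (hst : MonomialMap B Ω U u)
    {b : Fin N → ℤ} (hb : b ≠ 0) :
    ∃ J f n, MinRel Ω U u J f n ∧ ∃ e1 ∈ J, ∃ e2 ∈ J, ∑ i, b i * ((e1 i : ℤ) - e2 i) ≠ 0 := by
  classical
  by_contra hcon
  push Not at hcon
  obtain ⟨J, f, n, hE, c, hc⟩ := hst.stab b hb
  apply hc
  have h1 := parts_zero (Ω := Ω) (U := U) (u := u) (b := b) (by
    intro J f n h e1 he1 e2 he2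
    have h2 := hcon J f n h e1 he1 e2 he2
    rw [← sub_eq_zero, ← h2, ← Finset.sum_sub_distrib]
    exact Finset.sum_congr rfl fun i _ => by ring) n hE.pos
    _ (J.filter fun e => f e ≠ 0) f le_rfl (fun e he => ⟨hE.coeff e, (Finset.mem_filter.1 he).2⟩)
    ((Nat.pow_le_pow_left (Nat.sub_le_sub_right (Finset.card_le_card
      (Finset.filter_subset _ _)) 1) 2).trans hE.large)
    (fun e he => hE.dvd e (Finset.mem_filter.1 he).1) (by
      refine (Finset.sum_filter_of_ne ?_).trans hE.sum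
      intro e _ h3 h4
      exact h3 (by rw [h4, zero_mul])) c
  rw [Finset.filter_comm] at h1
  refine (Finset.sum_filter_of_ne ?_).symm.trans h1
  intro e _ h3 h4
  exact h3 (by rw [h4, zero_mul])

/-- finitely many minimal relations whose exponents span -/
theorem torus_data {B : Type} [CommRing B] [Algebra B M] (hst : MonomialMap B Ω U u) :
    ∃ Q : Finset (Fin N → ℤ),
    (∀ q ∈ Q, ∃ J f n, MinRel Ω U u J f n ∧ ∃ e1 ∈ J, ∃ e2 ∈ J, ∀ i, q i = (e1 i : ℤ) - e2 i) ∧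
    ∀ j, ∃ (c : (Fin N → ℤ) → ℤ) (d : ℕ), 0 < d ∧ ∀ l, l ∉ (∅ : Finset (Fin N)) →
      ∑ q ∈ Q, c q * q l = if l = j then (d : ℤ) else 0 := by
  classical
  obtain ⟨D, hD⟩ : ∃ D : Set (Fin N → ℤ), D = {q | ∃ J f n, MinRel Ω U u J f n ∧ ∃ e1 ∈ J,
    ∃ e2 ∈ J, ∀ i, q i = (e1 i : ℤ) - e2 i} := ⟨_, rfl⟩
  have hfg : (Submodule.span ℤ D).FG := IsNoetherian.noetherian _
  obtain ⟨Q, hQ, hspan⟩ := Submodule.fg_span_iff_fg_span_finset_subset D |>.1 hfg
  refine ⟨Q, ?_, ?_⟩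
  · intro q hq
    have h1 := hQ hq
    rw [hD] at h1
    exact h1
  · intro j
    rcases dich (∅ : Finset (Fin N)) Q j with ⟨d, c, hd, hc⟩ | ⟨b, hbj, -, hb⟩
    · exact ⟨c, d, hd, hc⟩
    · exfalso
      have hb0 : b ≠ 0 := fun h0 => hbj (by rw [h0]; rfl)
      obtain ⟨J, f, n, hJ, e1, he1, e2, he2, hne⟩ := exists_min hst hb0
      apply hne
      let ℓ : (Fin N → ℤ) →ₗ[ℤ] ℤ := ∑ i, b i • LinearMap.proj i
      have hℓ : ∀ q, ℓ q = ∑ i, b i * q i := by
        intro q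
        simp [ℓ]
      have h1 : Submodule.span ℤ D ≤ LinearMap.ker ℓ := by
        rw [hspan, Submodule.span_le]
        intro q hq
        rw [SetLike.mem_coe, LinearMap.mem_ker, hℓ]
        exact hb q hq
      have h2 : (fun i => (e1 i : ℤ) - e2 i) ∈ D := by
        rw [hD]
        exact ⟨J, f, n, hJ, e1, he1, e2, he2, fun _ => rfl⟩
      have h3 := h1 (Submodule.subset_span h2)
      rw [LinearMap.mem_ker, hℓ] at h3
      exact h3

end gen

section bound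

variable {k K : Type} [Field k] [Field K] [Algebra k K] [CharZero k] [IsFF k K] [IsAlgClosed k]

theorem ord_prod_pow (P : Place k K) {N : ℕ} {u : Fin N → K} (hu : ∀ i, u i ≠ 0) (e : Fin N → ℕ) :
    P.ord (∏ i, u i ^ e i) = ∑ i, (e i : ℤ) * P.ord (u i) := by
  classical
  have h3 : ∀ s : Finset (Fin N), P.ord (∏ l ∈ s, u l ^ e l) = ∑ l ∈ s, (e l : ℤ) * P.ord (u l) := by
    intro s
    induction s using Finset.induction_on with
    | empty => simpa using P.ord_one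
    | insert a s ha ih =>
      rw [Finset.prod_insert ha, Finset.sum_insert ha, P.ord_mul (pow_ne_zero _ (hu a))
        (Finset.prod_ne_zero_iff.2 fun l _ => pow_ne_zero _ (hu l)), ih, P.ord_pow]
  exact h3 Finset.univ

/-- **A minimal relation between monomials.** -/
theorem rel_bound (S : Finset (Place k K)) {N : ℕ} {U : Set (Fin N)} {u : Fin N → K}
    (hu0 : ∀ i, u i ≠ 0) (hu : ∀ P ∉ S, ∀ i ∈ U, P.ord (u i) = 0) (J : Finset (Fin N → ℕ))
    (f : (Fin N → ℕ) → K) {n : ℕ} (hn0 : 0 < n) (hn : (J.card - 1) ^ 2 ≤ n)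
    (hdvd : ∀ e ∈ J, ∀ i, i ∉ U → n ∣ e i)
    (hf0 : ∀ e ∈ J, f e ≠ 0) (hf : ∀ e ∈ J, ∀ P ∉ S, P.ord (f e) = 0)
    (hrel : ∑ e ∈ J, f e * ∏ i, u i ^ e i = 0)
    (hmin : ∀ J' ⊆ J, J'.Nonempty → J' ≠ J → ∑ e ∈ J', f e * ∏ i, u i ^ e i ≠ 0)
    {e1 e2 : Fin N → ℕ} (h1 : e1 ∈ J) (h2 : e2 ∈ J) :
    hgt k ((f e1 * ∏ i, u i ^ e1 i) / (f e2 * ∏ i, u i ^ e2 i)) ≤
      J.card * (n * tri J.card * max (canDeg k K + S.card) 0) := by
  classical
  obtain ⟨g, hg⟩ : ∃ g : J → K, ∀ e : J, g e = f e * ∏ i, u i ^ (e : Fin N → ℕ) i :=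
    ⟨_, fun _ => rfl⟩
  have hp0 : ∀ e : Fin N → ℕ, ∏ i, u i ^ e i ≠ 0 := fun e =>
    Finset.prod_ne_zero_iff.2 fun i _ => pow_ne_zero _ (hu0 i)
  have hg0 : ∀ e, g e ≠ 0 := fun e => by
    rw [hg]
    exact mul_ne_zero (hf0 e e.2) (hp0 e)
  have hord : ∀ P ∉ S, ∀ e, (n : ℤ) ∣ P.ord (g e) := by
    intro P hP e
    rw [hg, P.ord_mul (hf0 e e.2) (hp0 e), hf e e.2 P hP, ord_prod_pow P hu0, zero_add]
    refine Finset.dvd_sum fun i _ => ?_
    by_cases hi : i ∈ U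
    · rw [hu P hP i hi, mul_zero]
      exact dvd_zero _
    · exact Dvd.dvd.mul_right (by exact_mod_cast hdvd e e.2 i hi) _
  obtain ⟨R, hRe, hRh, hRs⟩ := blocks S (s := J.card) (N := n)
    (by rw [Fintype.card_coe]) hn0 hn g hg0 (by
      rw [← hrel, ← Finset.sum_coe_sort J fun e => f e * ∏ i, u i ^ e i]
      exact Finset.sum_congr rfl fun e _ => hg e) (by
      intro P hP i j
      exact dvd_sub (hord P hP i) (hord P hP j))
  obtain ⟨A, hA⟩ : ∃ A : Finset J, A = Finset.univ.filter fun j => R ⟨e1, h1⟩ j := ⟨_, rfl⟩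
  have hs := hRs ⟨e1, h1⟩ A (fun j => by rw [hA]; simp)
  obtain ⟨J', hJ'⟩ : ∃ J' : Finset (Fin N → ℕ), J' = A.map (Function.Embedding.subtype _) :=
    ⟨_, rfl⟩
  have hsub : J' ⊆ J := by
    intro e he
    rw [hJ', Finset.mem_map] at he
    obtain ⟨x, -, rfl⟩ := he
    exact x.2
  have hsum' : ∑ e ∈ J', f e * ∏ i, u i ^ e i = 0 := by
    rw [hJ', Finset.sum_map, ← hs]
    exact Finset.sum_congr rfl fun e _ => (hg e).symm
  have hne : J'.Nonempty := by
    refine ⟨e1, ?_⟩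
    rw [hJ', Finset.mem_map]
    refine ⟨⟨e1, h1⟩, ?_, rfl⟩
    rw [hA, Finset.mem_filter]
    exact ⟨Finset.mem_univ _, hRe.refl _⟩
  have heq : J' = J := by
    by_contra h0
    exact hmin J' hsub hne h0 hsum'
  have hR : R ⟨e1, h1⟩ ⟨e2, h2⟩ := by
    rw [← heq, hJ', Finset.mem_map] at h2
    obtain ⟨x, hx, hx2⟩ := h2
    rw [hA, Finset.mem_filter] at hx
    have h3 : x = ⟨e2, by rw [← heq, hJ', Finset.mem_map]; exact ⟨x, by
      rw [hA, Finset.mem_filter]; exact hx, hx2⟩⟩ := Subtype.ext hx2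
    rw [← h3]
    exact hx.2
  have := hRh _ _ hR
  rw [hg, hg] at this
  exact this

end bound

end Pool.Agent.K4H62.VA
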